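import Pool.Agent.TnP.Mat

/-!
Conjugation by positive diagonal matrices, and the matrix with given data
(helper57, MP_e00e09_al).
-/

namespace Pool.Agent.TnP

open Polynomial Matrix

noncomputable section

theorem same_of_data {m : ℕ} {A B : Matrix (Fin (m+2)) (Fin (m+2)) ℝ} (hA : IsT m A)
    (hB : IsT m B) (h0 : A 0 0 = B 0 0)
    (hl : A (Fin.last (m+1)) (Fin.last (m+1)) = B (Fin.last (m+1)) (Fin.last (m+1)))
    (hx : ∀ i < m + 1, xF A i = xF B i) :
    ∃ d : Fin (m+2) → ℝ, (∀ i, 0 < d i) ∧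
      B = diagonal d * A * diagonal (fun i => (d i)⁻¹) := by
  let δ : ℕ → ℝ := fun i => ∏ j ∈ Finset.range i, uF A j / uF B j
  have hδ : ∀ i, 0 < δ i := fun i =>
    Finset.prod_pos (fun j _ => div_pos (uF_pos hA j) (uF_pos hB j))
  have hs : ∀ i, δ (i+1) = δ i * (uF A i / uF B i) := fun i => Finset.prod_range_succ _ _
  refine ⟨fun i => δ i, fun i => hδ i, ?_⟩
  ext i j
  have hi := i.2
  have hj := j.2
  rw [mul_diagonal, diagonal_mul]
  change B i j = δ i * A i j * (δ j)⁻¹
  have hBe : B i j = TD (dF B) (uF B) (lF B) (m+2) i j := by rw [← eq_TD hB]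
  have hAe : A i j = TD (dF A) (uF A) (lF A) (m+2) i j := by rw [← eq_TD hA]
  have hd : dF B i = dF A i := by
    rw [dF, dF, dif_pos hi, dif_pos hi]
    change B i i = A i i
    by_cases e0 : i = 0
    · rw [e0]; exact h0.symm
    · by_cases e1 : i = Fin.last (m+1)
      · rw [e1]; exact hl.symm
      · have e2 := hA.mid i e0 e1
        have e3 := hB.mid i e0 e1
        rw [e2, e3]
  rw [hBe, hAe]
  simp only [TD]
  by_cases h1 : (j : ℕ) = i
  · rw [if_pos h1, if_pos h1, hd, h1]
    have := (hδ i).ne'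
    field_simp
  · rw [if_neg h1, if_neg h1]
    by_cases h2 : (j : ℕ) = i + 1
    · rw [if_pos h2, if_pos h2, h2, hs]
      have e1 := (hδ i).ne'
      have e2 := (uF_pos hA i).ne'
      have e3 := (uF_pos hB i).ne'
      field_simp
    · rw [if_neg h2, if_neg h2]
      by_cases h3 : (i : ℕ) = j + 1
      · rw [if_pos h3, if_pos h3, h3, hs]
        have e1 := (hδ j).ne'
        have e2 := (uF_pos hA j).ne'
        have e3 := (uF_pos hB j).ne'
        have e4 := hx j (by omega)
        rw [xF, xF] at e4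
        field_simp
        linarith
      · rw [if_neg h3, if_neg h3]; simp

theorem data_of_conj {m : ℕ} {A B : Matrix (Fin (m+2)) (Fin (m+2)) ℝ} (hA : IsT m A)
    {d : Fin (m+2) → ℝ} (hd : ∀ i, 0 < d i)
    (hB : B = diagonal d * A * diagonal (fun i => (d i)⁻¹)) :
    IsT m B ∧ A.charpoly = B.charpoly ∧ weight m A = weight m B := by
  have hBe : ∀ i j, B i j = d i * A i j * (d j)⁻¹ := by
    intro i j
    rw [hB, mul_diagonal, diagonal_mul]
  have hdiag : ∀ i, B i i = A i i := by
    intro i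
    rw [hBe]
    have := (hd i).ne'
    field_simp
  have hT : IsT m B := by
    refine ⟨fun i j h => ?_, fun i => ?_, fun i => ?_, ?_, ?_, fun i h1 h2 => ?_⟩
    · rw [hBe, hA.zero i j h]; ring
    · rw [hBe]
      exact mul_pos (mul_pos (hd _) (hA.super i)) (inv_pos.2 (hd _))
    · rw [hBe]
      exact mul_neg_of_neg_of_pos (mul_neg_of_pos_of_neg (hd _) (hA.sub i)) (inv_pos.2 (hd _))
    · rw [hdiag]; exact hA.first
    · rw [hdiag]; exact hA.last
    · rw [hdiag]; exact hA.mid i h1 h2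
  have hx : xF A = xF B := by
    funext i
    rw [xF, xF, uF, uF, lF, lF]
    by_cases hi : i < m + 1
    · rw [dif_pos hi, dif_pos hi, dif_pos hi, dif_pos hi, hBe, hBe]
      have e1 := (hd (Fin.castSucc ⟨i, hi⟩)).ne'
      have e2 := (hd (Fin.succ ⟨i, hi⟩)).ne'
      field_simp
    · rw [dif_neg hi, dif_neg hi, dif_neg hi, dif_neg hi]
  refine ⟨hT, ?_, ?_⟩
  · rw [charpoly_IsT hA, charpoly_IsT hT, hdiag, hdiag, hx]
  · rw [weight_IsT hA, weight_IsT hT, hdiag, hdiag, hx]

theorem exists_mat (m : ℕ) {a b : ℝ} {x : ℕ → ℝ} (ha : 0 < a) (hb : 0 < b) (hx : ∀ i, 0 < x i) :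
    ∃ A : Matrix (Fin (m+2)) (Fin (m+2)) ℝ, IsT m A ∧ A.charpoly = PP a b x (m+1) ∧
      weight m A = a * b * PX x (m+1) ∧ A 0 0 = a := by
  let d : ℕ → ℝ := fun i => if i = 0 then a else if i = m + 1 then -b else 0
  let A := TD d (fun _ => (1 : ℝ)) (fun i => - x i) (m+2)
  have h00 : A 0 0 = a := by
    change TD d (fun _ => (1 : ℝ)) (fun i => - x i) (m+2) 0 0 = a
    simp [TD, d]
  have hll : A (Fin.last (m+1)) (Fin.last (m+1)) = -b := by
    change TD d (fun _ => (1 : ℝ)) (fun i => - x i) (m+2) (Fin.last (m+1)) (Fin.last (m+1)) = -b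
    simp [TD, d]
  have hup : ∀ i : Fin (m+1), A i.castSucc i.succ = 1 := by
    intro i
    change TD d (fun _ => (1 : ℝ)) (fun i => - x i) (m+2) i.castSucc i.succ = 1
    simp [TD]
  have hlo : ∀ i : Fin (m+1), A i.succ i.castSucc = - x i := by
    intro i
    change TD d (fun _ => (1 : ℝ)) (fun i => - x i) (m+2) i.succ i.castSucc = - x i
    simp only [TD, Fin.val_succ, Fin.val_castSucc]
    rw [if_neg (by omega), if_neg (by omega), if_pos trivial]
  have hT : IsT m A := by
    refine ⟨fun i j h => ?_, fun i => ?_, fun i => ?_, ?_, ?_, fun i h1 h2 => ?_⟩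
    · change TD d (fun _ => (1 : ℝ)) (fun i => - x i) (m+2) i j = 0
      simp only [TD]
      rw [if_neg (by omega), if_neg (by omega), if_neg (by omega)]
    · rw [hup]; exact one_pos
    · rw [hlo]; have := hx i; linarith
    · rw [h00]; exact ha
    · rw [hll]; linarith
    · change TD d (fun _ => (1 : ℝ)) (fun i => - x i) (m+2) i i = 0
      simp only [TD, if_true, d]
      have h3 : (i : ℕ) ≠ 0 := fun e => h1 (Fin.ext (by simpa using e))
      have h4 : (i : ℕ) ≠ m + 1 := fun e => h2 (Fin.ext (by simpa using e))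
      rw [if_neg h3, if_neg h4]
  have hxF : ∀ i < m + 1, xF A i = x i := by
    intro i hi
    rw [xF, uF, lF, dif_pos hi, dif_pos hi, hup, hlo]
    simp
  refine ⟨A, hT, ?_, ?_, h00⟩
  · rw [charpoly_IsT hT, h00, hll, neg_neg, PP, PP, N0, N0, N1, N1]
    rw [(K_congr (x := xF A) (y := x) (m+1)).1 (fun i hi => hxF i (by omega)),
      (K_congr (x := xF A) (y := x) (m+1)).2 (fun i hi => hxF i (by omega)),
      (M_congr (x := xF A) (y := x) (m+1)).1 (fun i hi => hxF i (by omega)),
      (M_congr (x := xF A) (y := x) (m+1)).2 (fun i hi => hxF i (by omega))]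
  · rw [weight_IsT hT, h00, hll, neg_neg, PX, PX]
    congr 1
    exact Finset.prod_congr rfl (fun i hi => hxF i (Finset.mem_range.1 hi))


end

end Pool.Agent.TnP
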