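import Mathlib

/-!
Continuants of skew tridiagonal matrices, helper file for MP_e00e09_al (helper57).
`K x k` is the characteristic polynomial of the `k x k` tridiagonal matrix with zero
diagonal whose `i`-th pair of off-diagonal entries has product `- x i`, and `M x k` is the
same with the first row and the first column removed.
-/

namespace Pool.Agent.TnP

open Polynomial

noncomputable section

/-- continuants -/
def K (x : ℕ → ℝ) : ℕ → ℝ[X]
  | 0 => 1
  | 1 => X
  | (k+2) => X * K x (k+1) + C (x k) * K x k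

/-- continuants without the first index -/
def M (x : ℕ → ℝ) : ℕ → ℝ[X]
  | 0 => 0
  | 1 => 1
  | (k+2) => X * M x (k+1) + C (x k) * M x k

theorem K_succ (x : ℕ → ℝ) (k : ℕ) : K x (k+2) = X * K x (k+1) + C (x k) * K x k := by
  rw [K]

theorem M_succ (x : ℕ → ℝ) (k : ℕ) : M x (k+2) = X * M x (k+1) + C (x k) * M x k := by
  rw [M]

theorem K_monic_deg (x : ℕ → ℝ) (k : ℕ) :
    ((K x k).Monic ∧ (K x k).natDegree = k) ∧
      ((K x (k+1)).Monic ∧ (K x (k+1)).natDegree = k + 1) := by
  induction k with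
  | zero =>
    refine ⟨⟨?_, ?_⟩, ?_, ?_⟩
    · rw [K]; exact monic_one
    · rw [K]; simp
    · rw [K]; exact monic_X
    · rw [K]; simp
  | succ k ih =>
    refine ⟨ih.2, ?_⟩
    obtain ⟨⟨h1, h2⟩, h3, h4⟩ := ih
    have hm : (X * K x (k+1)).Monic := monic_X.mul h3
    have hd : (X * K x (k+1)).natDegree = k + 2 := by
      rw [Monic.natDegree_mul monic_X h3, h4, natDegree_X]; omega
    have hlt : (C (x k) * K x k).degree < (X * K x (k+1)).degree := by
      rw [degree_eq_natDegree hm.ne_zero, hd]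
      refine lt_of_le_of_lt degree_le_natDegree ?_
      have h5 := natDegree_C_mul_le (x k) (K x k)
      rw [h2] at h5
      exact_mod_cast (by omega : (C (x k) * K x k).natDegree < k + 2)
    rw [K_succ]
    refine ⟨hm.add_of_left hlt, ?_⟩
    rw [natDegree_add_eq_left_of_degree_lt hlt, hd]

theorem K_monic (x : ℕ → ℝ) (k : ℕ) : (K x k).Monic := (K_monic_deg x k).1.1
theorem K_deg (x : ℕ → ℝ) (k : ℕ) : (K x k).natDegree = k := (K_monic_deg x k).1.2

theorem M_monic_deg (x : ℕ → ℝ) (k : ℕ) :
    ((M x (k+1)).Monic ∧ (M x (k+1)).natDegree = k) ∧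
      ((M x (k+2)).Monic ∧ (M x (k+2)).natDegree = k + 1) := by
  induction k with
  | zero =>
    refine ⟨⟨?_, ?_⟩, ?_, ?_⟩
    · rw [M]; exact monic_one
    · rw [M]; simp
    · rw [M_succ, M, M]; simp
    · rw [M_succ, M, M]; simp
  | succ k ih =>
    refine ⟨ih.2, ?_⟩
    obtain ⟨⟨h1, h2⟩, h3, h4⟩ := ih
    have hm : (X * M x (k+2)).Monic := monic_X.mul h3
    have hd : (X * M x (k+2)).natDegree = k + 2 := by
      rw [Monic.natDegree_mul monic_X h3, h4, natDegree_X]; omega
    have hlt : (C (x (k+1)) * M x (k+1)).degree < (X * M x (k+2)).degree := by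
      rw [degree_eq_natDegree hm.ne_zero, hd]
      refine lt_of_le_of_lt degree_le_natDegree ?_
      have h5 := natDegree_C_mul_le (x (k+1)) (M x (k+1))
      rw [h2] at h5
      exact_mod_cast (by omega : (C (x (k+1)) * M x (k+1)).natDegree < k + 2)
    have e : M x (k + 1 + 2) = X * M x (k+2) + C (x (k+1)) * M x (k+1) := M_succ x (k+1)
    rw [e]
    refine ⟨hm.add_of_left hlt, ?_⟩
    rw [natDegree_add_eq_left_of_degree_lt hlt, hd]

theorem M_monic (x : ℕ → ℝ) (k : ℕ) : (M x (k+1)).Monic := (M_monic_deg x k).1.1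
theorem M_deg (x : ℕ → ℝ) (k : ℕ) : (M x (k+1)).natDegree = k := (M_monic_deg x k).1.2

theorem K_neg (x : ℕ → ℝ) (k : ℕ) :
    (K x k).comp (-X) = (-1)^k * K x k ∧ (K x (k+1)).comp (-X) = (-1)^(k+1) * K x (k+1) := by
  induction k with
  | zero => simp [K]
  | succ k ih =>
    refine ⟨ih.2, ?_⟩
    rw [show k + 1 + 1 = k + 2 from rfl, K_succ]
    simp only [add_comp, mul_comp, X_comp, C_comp]
    rw [ih.1, ih.2]
    ring

theorem M_neg (x : ℕ → ℝ) (k : ℕ) :
    (M x k).comp (-X) = (-1)^(k+1) * M x k ∧ (M x (k+1)).comp (-X) = (-1)^k * M x (k+1) := by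
  induction k with
  | zero => simp [M]
  | succ k ih =>
    refine ⟨?_, ?_⟩
    · rw [ih.2]; ring
    rw [show k + 1 + 1 = k + 2 from rfl, M_succ]
    simp only [add_comp, mul_comp, X_comp, C_comp]
    rw [ih.1, ih.2]
    ring

/-- product of the first pairs -/
def PX (x : ℕ → ℝ) (k : ℕ) : ℝ := ∏ i ∈ Finset.range k, x i

theorem wronski (x : ℕ → ℝ) (k : ℕ) :
    K x (k+1) * M x k - K x k * M x (k+1) = (-1)^(k+1) * C (PX x k) := by
  induction k with
  | zero => simp [K, M, PX]
  | succ k ih =>
    rw [show k + 1 + 1 = k + 2 from rfl, K_succ, M_succ]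
    have e : C (PX x (k+1)) = C (PX x k) * C (x k) := by
      rw [PX, Finset.prod_range_succ, ← PX, C_mul]
    rw [e]
    linear_combination (- C (x k)) * ih

theorem K_congr {x y : ℕ → ℝ} (k : ℕ) :
    ((∀ i, i + 1 < k → x i = y i) → K x k = K y k) ∧
    ((∀ i, i + 1 < k + 1 → x i = y i) → K x (k+1) = K y (k+1)) := by
  induction k with
  | zero => refine ⟨fun _ => by simp [K], fun _ => by simp [K]⟩
  | succ k ih =>
    refine ⟨ih.2, fun h => ?_⟩
    rw [show k + 1 + 1 = k + 2 from rfl, K_succ, K_succ,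
      ih.1 (fun i hi => h i (by omega)), ih.2 (fun i hi => h i (by omega)), h k (by omega)]

theorem M_congr {x y : ℕ → ℝ} (k : ℕ) :
    ((∀ i, i + 1 < k → x i = y i) → M x k = M y k) ∧
    ((∀ i, i + 1 < k + 1 → x i = y i) → M x (k+1) = M y (k+1)) := by
  induction k with
  | zero => refine ⟨fun _ => by simp [M], fun _ => by simp [M]⟩
  | succ k ih =>
    refine ⟨ih.2, fun h => ?_⟩
    rw [show k + 1 + 1 = k + 2 from rfl, M_succ, M_succ,
      ih.1 (fun i hi => h i (by omega)), ih.2 (fun i hi => h i (by omega)), h k (by omega)]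

/-- the two last continuants determine all entries -/
theorem K_inj {x y : ℕ → ℝ} (hx : ∀ i, 0 < x i) (k : ℕ) (h1 : K x (k+1) = K y (k+1))
    (h0 : K x k = K y k) : ∀ i < k, x i = y i := by
  induction k with
  | zero => intro i hi; omega
  | succ k ih =>
    rw [show k + 1 + 1 = k + 2 from rfl, K_succ, K_succ, h0] at h1
    have h2 : C (x k) * K x k = C (y k) * K y k := add_left_cancel h1
    have h3 : x k = y k := by
      have := congrArg (fun P => coeff P k) h2
      simp only [coeff_C_mul] at this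
      have e1 : (K x k).coeff k = 1 := by
        have := (K_monic x k).coeff_natDegree; rwa [K_deg] at this
      have e2 : (K y k).coeff k = 1 := by
        have := (K_monic y k).coeff_natDegree; rwa [K_deg] at this
      rw [e1, e2] at this; simpa using this
    have h4 : K x k = K y k := by
      rw [← h3] at h2
      exact mul_left_cancel₀ (C_ne_zero.2 (hx k).ne') h2
    intro i hi
    rcases Nat.lt_succ_iff_lt_or_eq.1 hi with h | h
    · exact ih h0 h4 i h
    · rw [h, h3]

end

end Pool.Agent.TnP
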