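import Pool.Agent.TnP.Spec

/-!
`(G + p)/2` is Hurwitz when `G` is the spectral factor of `p(s) p(-s) + c` (helper57, MP_e00e09_al).
-/

namespace Pool.Agent.TnP

open Polynomial ComplexConjugate Filter Topology Asymptotics Bornology

noncomputable section

theorem hur_lower {G : ℝ[X]} (hm : G.Monic) (h : Hur G) :
    ∃ δ : ℝ, 0 < δ ∧ ∀ z : ℂ, 0 ≤ z.re → δ ≤ ‖aeval z G‖ := by
  have hsp : (G.map (algebraMap ℝ ℂ)).Splits := IsAlgClosed.splits _
  have hmc : (G.map (algebraMap ℝ ℂ)).Monic := hm.map _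
  have e1 : ∀ w : ℂ, aeval w G = ((G.map (algebraMap ℝ ℂ)).roots.map (fun r => w - r)).prod := by
    intro w
    rw [← hsp.eval_eq_prod_roots_of_monic hmc w, eval_map_algebraMap]
  have hr := hur_roots h
  generalize (G.map (algebraMap ℝ ℂ)).roots = s at e1 hr
  have h3 : ∀ s : Multiset ℂ, (∀ r ∈ s, r.re < 0) →
      ∃ δ : ℝ, 0 < δ ∧ ∀ z : ℂ, 0 ≤ z.re → δ ≤ ‖(s.map (fun r => z - r)).prod‖ := by
    intro s
    induction s using Multiset.induction_on with
    | empty => intro _; exact ⟨1, one_pos, fun z _ => by simp⟩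
    | cons a s ih =>
      intro hs
      obtain ⟨δ, hδ, hd⟩ := ih (fun r hr => hs r (Multiset.mem_cons_of_mem hr))
      have ha := hs a (Multiset.mem_cons_self a s)
      refine ⟨(-a.re) * δ, mul_pos (by linarith) hδ, fun z hz => ?_⟩
      rw [Multiset.map_cons, Multiset.prod_cons, norm_mul]
      refine mul_le_mul ?_ (hd z hz) hδ.le (norm_nonneg _)
      have h1 := Complex.abs_re_le_norm (z - a)
      rw [Complex.sub_re] at h1
      have h2 := le_abs_self (z.re - a.re)
      linarith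
  obtain ⟨δ, hδ, hd⟩ := h3 s hr
  exact ⟨δ, hδ, fun z hz => by rw [e1]; exact hd z hz⟩

theorem poly_growth (p : ℝ[X]) : ∃ A : ℝ, 0 ≤ A ∧ ∀ z : ℂ, ‖aeval z p‖ ≤ A * Real.exp ‖z‖ := by
  induction p using Polynomial.induction_on' with
  | add p q hp hq =>
    obtain ⟨A, hA, h1⟩ := hp
    obtain ⟨B, hB, h2⟩ := hq
    refine ⟨A + B, by linarith, fun z => ?_⟩
    rw [map_add, add_mul]
    exact (norm_add_le _ _).trans (add_le_add (h1 z) (h2 z))
  | monomial k a =>
    refine ⟨|a| * k.factorial, by positivity, fun z => ?_⟩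
    rw [aeval_monomial, norm_mul, Complex.coe_algebraMap, Complex.norm_real, Real.norm_eq_abs,
      norm_pow, mul_assoc]
    refine mul_le_mul_of_nonneg_left ?_ (abs_nonneg _)
    have h1 := Real.pow_div_factorial_le_exp ‖z‖ (norm_nonneg _) k
    have h2 : (0 : ℝ) < k.factorial := by positivity
    rw [div_le_iff₀ h2] at h1
    linarith

theorem ratio_real {p G : ℝ[X]} (hp : p.Monic) (hG : G.Monic) (hd : G.natDegree = p.natDegree) :
    Tendsto (fun x : ℝ => aeval (x : ℂ) p / aeval (x : ℂ) G) atTop (𝓝 1) := by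
  have h1 : Tendsto (fun x => eval x p / eval x G) atTop (𝓝 (p.leadingCoeff / G.leadingCoeff)) := by
    apply Polynomial.div_tendsto_atTop_leadingCoeff_div_of_degree_eq
    rw [degree_eq_natDegree hp.ne_zero, degree_eq_natDegree hG.ne_zero, hd]
  rw [hp.leadingCoeff, hG.leadingCoeff, div_one] at h1
  have h2 : Tendsto (fun x => ((eval x p / eval x G : ℝ) : ℂ)) atTop (𝓝 ((1 : ℝ) : ℂ)) :=
    (Complex.continuous_ofReal.tendsto 1).comp h1
  rw [Complex.ofReal_one] at h2
  refine h2.congr (fun x => ?_)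
  have e : ∀ P : ℝ[X], aeval (x : ℂ) P = ((eval x P : ℝ) : ℂ) := by
    intro P
    have := aeval_algebraMap_apply ℂ x P
    rw [Complex.coe_algebraMap] at this
    rw [this]; simp
  rw [e, e]; push_cast; rfl

theorem half_hur {p G : ℝ[X]} {c : ℝ} (hc : 0 < c) (hp : p.Monic) (hG : G.Monic)
    (hd : G.natDegree = p.natDegree) (hh : Hur G)
    (h : G * G.comp (-X) = p * p.comp (-X) + C c) :
    ∀ z : ℂ, 0 ≤ z.re → aeval z G + aeval z p ≠ 0 := by
  set f : ℂ → ℂ := fun z => aeval z p / aeval z G with hf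
  have hcont : ∀ P : ℝ[X], Differentiable ℂ (fun z : ℂ => aeval z P) := fun P =>
    Polynomial.differentiable_aeval P
  have himag : ∀ z : ℂ, z.re = 0 → ‖aeval z G‖ ^ 2 = ‖aeval z p‖ ^ 2 + c := by
    intro z hz
    have h1 : -z = conj z := by
      apply Complex.ext <;> simp [hz]
    have h2 := congrArg (fun P => aeval z P) h
    simp only [map_mul, map_add, aeval_comp, aeval_C, map_neg, aeval_X] at h2
    rw [h1, aeval_conj, aeval_conj, Complex.mul_conj, Complex.mul_conj,
      Complex.normSq_eq_norm_sq, Complex.normSq_eq_norm_sq, Complex.coe_algebraMap] at h2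
    exact_mod_cast h2
  have hlt : ∀ z : ℂ, z.re = 0 → ‖f z‖ < 1 := by
    intro z hz
    have h1 := himag z hz
    have h2 : 0 < ‖aeval z G‖ := norm_pos_iff.2 (hh z hz.ge)
    rw [hf]
    simp only [norm_div]
    rw [div_lt_one h2]
    refine lt_of_pow_lt_pow_left₀ 2 h2.le ?_
    rw [h1]; linarith
  have hclos : closure {z : ℂ | 0 < z.re} ⊆ {z : ℂ | 0 ≤ z.re} :=
    closure_minimal (fun z hz => show (0 : ℝ) ≤ z.re from le_of_lt hz)
      (isClosed_le continuous_const Complex.continuous_re)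
  have hdiff : DiffContOnCl ℂ f {z : ℂ | 0 < z.re} := by
    apply DifferentiableOn.diffContOnCl
    intro z hz
    exact ((hcont p z).div (hcont G z) (hh z (hclos hz))).differentiableWithinAt
  obtain ⟨δ, hδ, hlow⟩ := hur_lower hG hh
  obtain ⟨A, hA, hgr⟩ := poly_growth p
  have hexp : ∃ c < (2 : ℝ), ∃ B, f =O[cobounded ℂ ⊓ 𝓟 {z | 0 < z.re}]
      fun z => Real.exp (B * ‖z‖ ^ c) := by
    refine ⟨1, by norm_num, 1, ?_⟩
    refine IsBigO.of_bound (A / δ) ?_
    have : ∀ᶠ z in cobounded ℂ ⊓ 𝓟 {z : ℂ | 0 < z.re}, z ∈ {z : ℂ | 0 < z.re} :=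
      mem_inf_of_right (mem_principal_self _)
    filter_upwards [this] with z hz
    have hz' : (0 : ℝ) < z.re := hz
    have h1 := hlow z hz'.le
    have h2 := hgr z
    rw [Real.rpow_one, one_mul, Real.norm_eq_abs, abs_of_pos (Real.exp_pos _), hf]
    simp only [norm_div]
    have h3 : 0 < ‖aeval z G‖ := lt_of_lt_of_le hδ h1
    rw [div_le_iff₀ h3]
    have h4 : 0 ≤ A * Real.exp ‖z‖ := mul_nonneg hA (Real.exp_pos _).le
    calc ‖aeval z p‖ ≤ A * Real.exp ‖z‖ := h2
      _ = (A * Real.exp ‖z‖) * 1 := by ring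
      _ ≤ (A * Real.exp ‖z‖) * (‖aeval z G‖ / δ) := by
        refine mul_le_mul_of_nonneg_left ?_ h4
        rw [le_div_iff₀ hδ]; linarith
      _ = A / δ * Real.exp ‖z‖ * ‖aeval z G‖ := by field_simp
  have htend := ratio_real hp hG hd
  have hre : IsBoundedUnder (· ≤ ·) atTop fun x : ℝ => ‖f x‖ := by
    have h1 : Tendsto (fun x : ℝ => ‖f x‖) atTop (𝓝 ‖(1 : ℂ)‖) := (continuous_norm.tendsto _).comp htend
    exact h1.isBoundedUnder_le
  have hle : ∀ z : ℂ, 0 ≤ z.re → ‖f z‖ ≤ 1 := fun z hz =>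
    PhragmenLindelof.right_half_plane_of_bounded_on_real hdiff hexp hre
      (fun x => (hlt _ (by simp)).le) hz
  intro z hz h0
  have hfz : f z = -1 := by
    rw [hf]
    have h2 := hh z hz
    field_simp
    linear_combination h0
  rcases hz.lt_or_eq with h1 | h1
  · have hconst : Set.EqOn f (Function.const ℂ (f z)) {w : ℂ | 0 < w.re} := by
      refine Complex.eqOn_of_isPreconnected_of_isMaxOn_norm ?_ ?_ ?_ h1 ?_
      · exact (convex_halfSpace_re_gt 0).isPreconnected
      · exact isOpen_lt continuous_const Complex.continuous_re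
      · exact hdiff.differentiableOn
      · intro w hw
        have hw' : (0 : ℝ) < w.re := hw
        change ‖f w‖ ≤ ‖f z‖
        rw [hfz]
        simpa using hle w hw'.le
    have h2 : Tendsto (fun x : ℝ => f x) atTop (𝓝 (-1)) := by
      refine tendsto_const_nhds.congr' ?_
      filter_upwards [eventually_gt_atTop 0] with x hx
      have h3 : ((x : ℂ)) ∈ {w : ℂ | 0 < w.re} := by simpa using hx
      rw [hconst h3, Function.const_apply, hfz]
    have h3 := tendsto_nhds_unique htend h2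
    norm_num at h3
  · have h2 := hlt z h1.symm
    rw [hfz] at h2
    simp at h2

end

end Pool.Agent.TnP
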