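import Pool.Agent.TnP.Cont

/-!
Real polynomials without zeros in the closed right half plane (helper57, MP_e00e09_al).
-/

namespace Pool.Agent.TnP

open Polynomial ComplexConjugate

noncomputable section

/-- no zero in the closed right half plane -/
def Hur (P : ℝ[X]) : Prop := ∀ z : ℂ, 0 ≤ z.re → aeval z P ≠ 0

theorem step_arith {t u v A P Q β γ A' : ℝ} (ht : 0 ≤ t) (hu : 0 ≤ u) (hA : 0 ≤ A)
    (hQ : 0 ≤ Q) (hQP : Q ≤ P) (hβ : 0 ≤ β) (hγ : 0 ≤ γ) (hv : v ^ 2 = u ^ 2 - 4 * t * γ)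
    (hA' : 0 ≤ A') (hA2 : A' ≤ u * A + 2 * γ * Q) (h : t * A ^ 2 ≤ β * (P ^ 2 - Q ^ 2)) :
    t * A' ^ 2 ≤ (γ + β) * ((u * P) ^ 2 - (v * Q) ^ 2) := by
  have hD : 0 ≤ P ^ 2 - Q ^ 2 := by nlinarith
  have key : 4 * t * u * A * Q ≤ u ^ 2 * (P ^ 2 - Q ^ 2) + 4 * t * β * Q ^ 2 := by
    have h1 : (4 * t * u * A * Q) ^ 2 ≤ (u ^ 2 * (P ^ 2 - Q ^ 2) + 4 * t * β * Q ^ 2) ^ 2 := by
      have h2 : 0 ≤ 16 * (t * u ^ 2 * Q ^ 2) * (β * (P ^ 2 - Q ^ 2) - t * A ^ 2) := by
        apply mul_nonneg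
        · positivity
        · linarith
      nlinarith [sq_nonneg (u ^ 2 * (P ^ 2 - Q ^ 2) - 4 * t * β * Q ^ 2)]
    have h3 : 0 ≤ u ^ 2 * (P ^ 2 - Q ^ 2) + 4 * t * β * Q ^ 2 := by positivity
    have h4 : 0 ≤ 4 * t * u * A * Q := by positivity
    exact (pow_le_pow_iff_left₀ h4 h3 two_ne_zero).1 h1
  have e : (u * P) ^ 2 - (v * Q) ^ 2 = u ^ 2 * (P ^ 2 - Q ^ 2) + 4 * t * γ * Q ^ 2 := by
    rw [mul_pow v Q, hv]; ring
  rw [e]
  have h5 : t * A' ^ 2 ≤ t * (u * A + 2 * γ * Q) ^ 2 :=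
    mul_le_mul_of_nonneg_left (pow_le_pow_left₀ hA' hA2 2) ht
  have h6 : 0 ≤ u ^ 2 * (β * (P ^ 2 - Q ^ 2) - t * A ^ 2) :=
    mul_nonneg (sq_nonneg _) (by linarith)
  have h7 : 0 ≤ γ * (u ^ 2 * (P ^ 2 - Q ^ 2) + 4 * t * β * Q ^ 2 - 4 * t * u * A * Q) :=
    mul_nonneg hγ (by linarith)
  nlinarith

theorem norm_sq_diff (z r : ℂ) : ‖z + conj r‖ ^ 2 = ‖z - r‖ ^ 2 - 4 * z.re * (-r.re) := by
  rw [← Complex.normSq_eq_norm_sq, ← Complex.normSq_eq_norm_sq, Complex.normSq_apply,
    Complex.normSq_apply]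
  simp
  ring

theorem prod_ineq (s : Multiset ℂ) (z : ℂ) (hz : 0 ≤ z.re) : (∀ r ∈ s, r.re ≤ 0) →
    0 ≤ (s.map (fun r => -r.re)).sum ∧
    ‖(s.map (fun r => z + conj r)).prod‖ ≤ ‖(s.map (fun r => z - r)).prod‖ ∧
    z.re * ‖(s.map (fun r => z - r)).prod - (s.map (fun r => z + conj r)).prod‖ ^ 2 ≤
      (s.map (fun r => -r.re)).sum * (‖(s.map (fun r => z - r)).prod‖ ^ 2
        - ‖(s.map (fun r => z + conj r)).prod‖ ^ 2) := by
  induction s using Multiset.induction_on with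
  | empty => intro _; simp
  | cons r s ih =>
    intro hs
    obtain ⟨h1, h2, h3⟩ := ih (fun a ha => hs a (Multiset.mem_cons_of_mem ha))
    have hr : r.re ≤ 0 := hs r (Multiset.mem_cons_self r s)
    simp only [Multiset.map_cons, Multiset.sum_cons, Multiset.prod_cons]
    set P := (s.map (fun r => z - r)).prod with hP
    set Q := (s.map (fun r => z + conj r)).prod with hQ
    set β := (s.map (fun r => -r.re)).sum with hβ
    have hv := norm_sq_diff z r
    have hle : ‖z + conj r‖ ≤ ‖z - r‖ := by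
      refine (pow_le_pow_iff_left₀ (norm_nonneg _) (norm_nonneg _) two_ne_zero).1 ?_
      rw [hv]
      nlinarith
    refine ⟨by linarith, ?_, ?_⟩
    · rw [norm_mul, norm_mul]
      exact mul_le_mul hle h2 (norm_nonneg _) (norm_nonneg _)
    · rw [norm_mul (z - r) P, norm_mul (z + conj r) Q]
      refine step_arith (A := ‖P - Q‖) hz (norm_nonneg _) (norm_nonneg _) (norm_nonneg _) h2 h1
        (by linarith) hv (norm_nonneg _) ?_ h3
      have e : (z - r) * P - (z + conj r) * Q = (z - r) * (P - Q) + ((-(2 * r.re) : ℝ) : ℂ) * Q := by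
        have e2 : conj r = ((2 * r.re : ℝ) : ℂ) - r := by
          apply Complex.ext <;> simp
          ring
        rw [e2]; push_cast; ring
      rw [e]
      refine (norm_add_le _ _).trans ?_
      rw [norm_mul, norm_mul, Complex.norm_real, Real.norm_eq_abs,
        abs_of_nonneg (by linarith : 0 ≤ -(2 * r.re))]
      linarith

theorem aeval_neg_eq (N : ℝ[X]) (z : ℂ) : aeval (-z) N = conj (aeval (- conj z) N) := by
  rw [← aeval_conj]; simp

theorem hur_roots {N : ℝ[X]} (h : Hur N) :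
    ∀ r ∈ (N.map (algebraMap ℝ ℂ)).roots, r.re < 0 := by
  intro r hr
  by_contra hc
  rw [not_lt] at hc
  apply h r hc
  have h1 := isRoot_of_mem_roots hr
  rw [IsRoot, eval_map_algebraMap] at h1
  exact h1

theorem hur_ineq {N : ℝ[X]} (hm : N.Monic) (h : Hur N) {n : ℕ} (hn : N.natDegree = n) (z : ℂ)
    (hz : 0 ≤ z.re) : z.re * ‖aeval z N - (-1) ^ n * aeval (-z) N‖ ^ 2 ≤
      N.nextCoeff * (‖aeval z N‖ ^ 2 - ‖aeval (-z) N‖ ^ 2) := by
  have hsp : (N.map (algebraMap ℝ ℂ)).Splits := IsAlgClosed.splits _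
  have hmc : (N.map (algebraMap ℝ ℂ)).Monic := hm.map _
  have hcard : Multiset.card (N.map (algebraMap ℝ ℂ)).roots = n := by
    rw [← hsp.natDegree_eq_card_roots, natDegree_map, hn]
  have e1 : ∀ w : ℂ, aeval w N = ((N.map (algebraMap ℝ ℂ)).roots.map (fun r => w - r)).prod := by
    intro w
    rw [← hsp.eval_eq_prod_roots_of_monic hmc w, eval_map_algebraMap]
  have e2 : (-1) ^ n * aeval (-z) N =
      ((N.map (algebraMap ℝ ℂ)).roots.map (fun r => z + conj r)).prod := by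
    rw [aeval_neg_eq, e1, map_multiset_prod, Multiset.map_map]
    have e3 : (-1 : ℂ) ^ n = ((N.map (algebraMap ℝ ℂ)).roots.map (fun _ => (-1 : ℂ))).prod := by
      rw [Multiset.map_const', Multiset.prod_replicate, hcard]
    rw [e3, ← Multiset.prod_map_mul]
    congr 1
    apply Multiset.map_congr rfl
    intro r _
    simp
    ring
  have e4 : N.nextCoeff = ((N.map (algebraMap ℝ ℂ)).roots.map (fun r => -r.re)).sum := by
    have h1 := hsp.nextCoeff_eq_neg_sum_roots_of_monic hmc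
    rw [nextCoeff_map (algebraMap ℝ ℂ).injective] at h1
    have h2 := congrArg Complex.re h1
    have h3 : ∀ s : Multiset ℂ, (-s.sum).re = (s.map (fun r => -r.re)).sum := by
      intro s
      induction s using Multiset.induction_on with
      | empty => simp
      | cons a s ih =>
        rw [Multiset.sum_cons, Multiset.map_cons, Multiset.sum_cons, ← ih]
        simp
        ring
    rw [h3] at h2
    simpa using h2
  have e5 : ‖aeval (-z) N‖ = ‖(-1) ^ n * aeval (-z) N‖ := by simp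
  rw [e5, e2, e1 z, e4]
  exact (prod_ineq _ z hz (fun r hr => (hur_roots h r hr).le)).2.2

theorem hur_next_pos {N : ℝ[X]} (hm : N.Monic) (h : Hur N) (hn : 0 < N.natDegree) :
    0 < N.nextCoeff := by
  have hsp : (N.map (algebraMap ℝ ℂ)).Splits := IsAlgClosed.splits _
  have hmc : (N.map (algebraMap ℝ ℂ)).Monic := hm.map _
  have hcard : Multiset.card (N.map (algebraMap ℝ ℂ)).roots = N.natDegree := by
    rw [← hsp.natDegree_eq_card_roots, natDegree_map]
  have h1 := hsp.nextCoeff_eq_neg_sum_roots_of_monic hmc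
  rw [nextCoeff_map (algebraMap ℝ ℂ).injective] at h1
  have h2 := congrArg Complex.re h1
  have h3 : ∀ s : Multiset ℂ, (∀ r ∈ s, r.re < 0) → s ≠ 0 → s.sum.re < 0 := by
    intro s
    induction s using Multiset.induction_on with
    | empty => intro _ h; exact absurd rfl h
    | cons a s ih =>
      intro hs _
      rw [Multiset.sum_cons, Complex.add_re]
      have ha := hs a (Multiset.mem_cons_self a s)
      by_cases h0 : s = 0
      · rw [h0]; simpa using ha
      · have := ih (fun r hr => hs r (Multiset.mem_cons_of_mem hr)) h0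
        linarith
  have h4 := h3 _ (hur_roots h) (by
    intro h0
    rw [h0] at hcard
    simp at hcard
    omega)
  rw [Complex.neg_re] at h2
  have h5 : ((algebraMap ℝ ℂ) N.nextCoeff).re = N.nextCoeff := by simp
  rw [h5] at h2
  linarith

end

end Pool.Agent.TnP
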