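import Pool.Agent.TnP.Half

/-!
The bijection `(a, b, x) <-> (p, c)` (helper57, MP_e00e09_al).
-/

namespace Pool.Agent.TnP

open Polynomial ComplexConjugate

noncomputable section

/-- `K + b L` -/
def N0 (b : ℝ) (x : ℕ → ℝ) (m : ℕ) : ℝ[X] := K x (m+1) + C b * K x m

/-- `M + b R` -/
def N1 (b : ℝ) (x : ℕ → ℝ) (m : ℕ) : ℝ[X] := M x (m+1) + C b * M x m

/-- the characteristic polynomial with `a` at the first and `-b` at the last place -/
def PP (a b : ℝ) (x : ℕ → ℝ) (m : ℕ) : ℝ[X] := N0 b x m - C a * N1 b x m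

/-- the characteristic polynomial with `-a` at the first and `-b` at the last place -/
def GG (a b : ℝ) (x : ℕ → ℝ) (m : ℕ) : ℝ[X] := N0 b x m + C a * N1 b x m

theorem PX_pos {x : ℕ → ℝ} (hx : ∀ i, 0 < x i) (m : ℕ) : 0 < PX x m :=
  Finset.prod_pos (fun i _ => hx i)

theorem N01 (b : ℝ) (x : ℕ → ℝ) (m : ℕ) :
    N0 b x m * (N1 b x m).comp (-X) + (N0 b x m).comp (-X) * N1 b x m =
      C (2 * b * PX x m) := by
  have h1 := (K_neg x m).1
  have h2 := (K_neg x m).2
  have h3 := (M_neg x m).1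
  have h4 := (M_neg x m).2
  have h5 := wronski x m
  have h6 : ((-1 : ℝ[X]) ^ m) * (-1) ^ m = 1 := by
    rw [← pow_add, ← two_mul, pow_mul]; simp
  rw [N0, N1]
  simp only [add_comp, mul_comp, C_comp]
  rw [h1, h2, h3, h4, C_mul, C_mul]
  have h7 : (-1 : ℝ[X]) ^ (m+1) = - (-1) ^ m := by rw [pow_succ]; ring
  rw [h7] at h5 ⊢
  have h8 : (C 2 : ℝ[X]) = 2 := rfl
  rw [h8]
  linear_combination (-(2 * C b * (-1) ^ m)) * h5 + (2 * C b * C (PX x m)) * h6

theorem N0_monic (b : ℝ) (x : ℕ → ℝ) (m : ℕ) :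
    (N0 b x m).Monic ∧ (N0 b x m).natDegree = m + 1 := by
  have h1 := K_monic x (m+1)
  have h2 := K_deg x (m+1)
  have hlt : (C b * K x m).degree < (K x (m+1)).degree := by
    rw [degree_eq_natDegree h1.ne_zero, h2]
    refine lt_of_le_of_lt degree_le_natDegree ?_
    have h5 := natDegree_C_mul_le b (K x m)
    rw [K_deg] at h5
    exact_mod_cast (by omega : (C b * K x m).natDegree < m + 1)
  rw [N0]
  exact ⟨h1.add_of_left hlt, by rw [natDegree_add_eq_left_of_degree_lt hlt, h2]⟩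

theorem N1_deg_le (b : ℝ) (x : ℕ → ℝ) (m : ℕ) : (N1 b x m).natDegree ≤ m := by
  rw [N1]
  refine (natDegree_add_le _ _).trans (max_le (M_deg x m).le ?_)
  refine (natDegree_C_mul_le _ _).trans ?_
  cases m with
  | zero => simp [M]
  | succ m => rw [M_deg]; omega

theorem exist (m : ℕ) {p : ℝ[X]} (hp : p.Monic) (hd : p.natDegree = m + 1) {c : ℝ} (hc : 0 < c) :
    ∃ a b : ℝ, 0 < a ∧ 0 < b ∧ ∃ x : ℕ → ℝ, (∀ i, 0 < x i) ∧ p = PP a b x m ∧
      4 * a * b * PX x m = c := by
  obtain ⟨G, hGm, hGd, hGh, hG⟩ := spec_exists hp (by omega) hc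
  have hhalf := half_hur hc hp hGm hGd hGh hG
  set N : ℝ[X] := C (1/2) * (G + p) with hN
  set U : ℝ[X] := C (1/2) * (G - p) with hU
  have hc1 : G.coeff (m+1) = 1 := by
    have := hGm.coeff_natDegree; rwa [hGd, hd] at this
  have hc2 : p.coeff (m+1) = 1 := by
    have := hp.coeff_natDegree; rwa [hd] at this
  have hNd : N.natDegree ≤ m + 1 := by
    refine (natDegree_C_mul_le _ _).trans ((natDegree_add_le _ _).trans (max_le ?_ ?_)) <;> omega
  have hNc : N.coeff (m+1) = 1 := by
    rw [hN, coeff_C_mul, coeff_add, hc1, hc2]; norm_num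
  have hNm : N.Monic := monic_of_natDegree_le_of_coeff_eq_one (m+1) hNd hNc
  have hND : N.natDegree = m + 1 :=
    le_antisymm hNd (le_natDegree_of_ne_zero (by rw [hNc]; exact one_ne_zero))
  have hNh : Hur N := by
    intro z hz h0
    apply hhalf z hz
    rw [hN, map_mul, aeval_C, map_add] at h0
    have h2 : (algebraMap ℝ ℂ) (1/2) ≠ 0 := by simp
    exact (mul_eq_zero.1 h0).resolve_left h2
  obtain ⟨b, hb, x, hx, hNe⟩ := routh m N hNm hND hNh
  have hNe' : N = N0 b x m := hNe
  have hPX := PX_pos hx m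
  have hUd : U.natDegree ≤ m := by
    rw [natDegree_le_iff_coeff_eq_zero]
    intro k hk
    rw [hU, coeff_C_mul, coeff_sub]
    rcases Nat.lt_or_ge (m+1) k with h | h
    · rw [coeff_eq_zero_of_natDegree_lt (by omega : G.natDegree < k),
        coeff_eq_zero_of_natDegree_lt (by omega : p.natDegree < k)]; ring
    · have : k = m + 1 := by omega
      rw [this, hc1, hc2]; ring
  have hid : N * U.comp (-X) + N.comp (-X) * U = C (c / 2) := by
    have e1 : (C (c/2) : ℝ[X]) = C (1/2) * C c := by rw [← C_mul]; congr 1; ring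
    have e2 : (C (1/2) : ℝ[X]) * 2 = 1 := by
      rw [show (2 : ℝ[X]) = C 2 from rfl, ← C_mul]; norm_num
    rw [hN, hU, e1]
    simp only [mul_comp, add_comp, sub_comp, C_comp]
    linear_combination (C (1/2) * C (1/2) * 2) * hG + (C (1/2) * C c) * e2
  have hid2 := N01 b x m
  rw [← hNe'] at hid2
  set Z : ℝ[X] := C (4 * b * PX x m) * U - C c * N1 b x m with hZ
  have hz1 : N * Z.comp (-X) + N.comp (-X) * Z = 0 := by
    rw [hZ]
    simp only [sub_comp, mul_comp, C_comp]
    have e : (C (4 * b * PX x m) : ℝ[X]) * C (c / 2) - C c * C (2 * b * PX x m) = 0 := by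
      rw [← C_mul, ← C_mul, ← C_sub]
      have : 4 * b * PX x m * (c / 2) - c * (2 * b * PX x m) = 0 := by ring
      rw [this, C_0]
    linear_combination C (4 * b * PX x m) * hid - C c * hid2 + e
  have hcop : IsCoprime N (N.comp (-X)) := coprime_neg hNh hNh
  have hdvd : N ∣ Z := by
    refine hcop.dvd_of_dvd_mul_left (Dvd.intro (- Z.comp (-X)) ?_)
    linear_combination -hz1
  have hZ0 : Z = 0 := by
    refine eq_zero_of_dvd_of_natDegree_lt hdvd ?_
    rw [hND]
    have h1 : Z.natDegree ≤ m := by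
      refine (natDegree_sub_le _ _).trans (max_le ?_ ?_)
      · exact (natDegree_C_mul_le _ _).trans hUd
      · exact (natDegree_C_mul_le _ _).trans (N1_deg_le b x m)
    omega
  have hbX : 0 < 4 * b * PX x m := by positivity
  have hUe : U = C (c / (4 * b * PX x m)) * N1 b x m := by
    have h1 : C (4 * b * PX x m) * U = C (4 * b * PX x m) * (C (c / (4 * b * PX x m)) * N1 b x m) := by
      have e : C (4 * b * PX x m) * C (c / (4 * b * PX x m)) = C c := by
        rw [← C_mul, mul_div_cancel₀ _ hbX.ne']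
      linear_combination hZ0 - hZ - N1 b x m * e
    exact mul_left_cancel₀ (C_ne_zero.2 hbX.ne') h1
  refine ⟨c / (4 * b * PX x m), b, by positivity, hb, x, hx, ?_, ?_⟩
  · rw [PP, ← hNe', ← hUe, hN, hU]
    have e2 : (C (1/2) : ℝ[X]) * 2 = 1 := by
      rw [show (2 : ℝ[X]) = C 2 from rfl, ← C_mul]; norm_num
    linear_combination (-p) * e2
  · field_simp

/-- `K + a M` -/
def YY (a : ℝ) (x : ℕ → ℝ) (k : ℕ) : ℝ[X] := K x k + C a * M x k

theorem YY_ratio {a : ℝ} (ha : 0 < a) {x : ℕ → ℝ} (hx : ∀ i, 0 < x i) {z : ℂ} (hz : 0 ≤ z.re)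
    (k : ℕ) : aeval z (YY a x k) ≠ 0 ∧ 0 < (aeval z (YY a x (k+1)) / aeval z (YY a x k)).re := by
  induction k with
  | zero =>
    simp [YY, K, M]
    linarith
  | succ k ih =>
    obtain ⟨h1, h2⟩ := ih
    have h3 : aeval z (YY a x (k+1)) ≠ 0 := by
      intro h; rw [h] at h2; simp at h2
    refine ⟨h3, ?_⟩
    have h4 : aeval z (YY a x (k+1+1)) = z * aeval z (YY a x (k+1)) + x k * aeval z (YY a x k) := by
      rw [YY, YY, YY, show k + 1 + 1 = k + 2 from rfl, K_succ, M_succ]
      simp only [map_mul, map_add, aeval_C, aeval_X, Complex.coe_algebraMap]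
      ring
    set w := aeval z (YY a x (k+1)) / aeval z (YY a x k) with hw
    have h5 : aeval z (YY a x (k+1+1)) / aeval z (YY a x (k+1)) = z + x k * w⁻¹ := by
      rw [h4, hw, inv_div]
      field_simp
    rw [h5, Complex.add_re, Complex.re_ofReal_mul, Complex.inv_re]
    have h6 : w ≠ 0 := by
      intro h; rw [h] at h2; simp at h2
    have h7 : 0 < Complex.normSq w := Complex.normSq_pos.2 h6
    have h8 : 0 < x k * (w.re / Complex.normSq w) := mul_pos (hx k) (div_pos h2 h7)
    linarith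

theorem GG_hur {a b : ℝ} (ha : 0 < a) (hb : 0 < b) {x : ℕ → ℝ} (hx : ∀ i, 0 < x i) (m : ℕ) :
    Hur (GG a b x m) := by
  intro z hz h0
  obtain ⟨h1, h2⟩ := YY_ratio ha hx hz m
  have h3 : aeval z (GG a b x m) = aeval z (YY a x (m+1)) + b * aeval z (YY a x m) := by
    rw [GG, N0, N1, YY, YY]
    simp only [map_mul, map_add, aeval_C, Complex.coe_algebraMap]
    ring
  have h4 : aeval z (YY a x (m+1)) / aeval z (YY a x m) = -b := by
    rw [div_eq_iff h1]
    linear_combination h0 - h3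
  rw [h4] at h2
  simp at h2
  linarith

theorem GG_monic (a b : ℝ) (x : ℕ → ℝ) (m : ℕ) : (GG a b x m).Monic := by
  obtain ⟨h1, h2⟩ := N0_monic b x m
  rw [GG]
  refine h1.add_of_left ?_
  rw [degree_eq_natDegree h1.ne_zero, h2]
  refine lt_of_le_of_lt degree_le_natDegree ?_
  have h5 := (natDegree_C_mul_le a (N1 b x m)).trans (N1_deg_le b x m)
  exact_mod_cast (by omega : (C a * N1 b x m).natDegree < m + 1)

theorem GG_spec (a b : ℝ) (x : ℕ → ℝ) (m : ℕ) :
    GG a b x m * (GG a b x m).comp (-X) =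
      PP a b x m * (PP a b x m).comp (-X) + C (4 * a * b * PX x m) := by
  have h1 := N01 b x m
  have e : (C (4 * a * b * PX x m) : ℝ[X]) = 2 * C a * C (2 * b * PX x m) := by
    rw [show (2 : ℝ[X]) = C 2 from rfl, ← C_mul, ← C_mul]; congr 1; ring
  rw [e, GG, PP]
  simp only [add_comp, sub_comp, mul_comp, C_comp]
  linear_combination (2 * C a) * h1

theorem uniq {m : ℕ} {a b a' b' : ℝ} {x x' : ℕ → ℝ} (ha : 0 < a) (hb : 0 < b) (ha' : 0 < a')
    (hb' : 0 < b') (hx : ∀ i, 0 < x i) (hx' : ∀ i, 0 < x' i) (h : PP a b x m = PP a' b' x' m)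
    (hc : a * b * PX x m = a' * b' * PX x' m) :
    a = a' ∧ b = b' ∧ ∀ i < m, x i = x' i := by
  have hG : GG a b x m = GG a' b' x' m := by
    refine spec_unique (GG_hur ha hb hx m) (GG_hur ha' hb' hx' m) (GG_monic _ _ _ _)
      (GG_monic _ _ _ _) ?_
    rw [GG_spec, GG_spec, h]
    congr 2
    linarith
  have hN : N0 b x m = N0 b' x' m := by
    have h1 : (2 : ℝ[X]) * N0 b x m = 2 * N0 b' x' m := by
      rw [PP, PP] at h
      rw [GG, GG] at hG
      linear_combination h + hG
    exact mul_left_cancel₀ two_ne_zero h1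
  have hN' := congrArg (fun P => P.comp (-X)) hN
  simp only [N0, add_comp, mul_comp, C_comp] at hN hN'
  rw [(K_neg x m).1, (K_neg x m).2, (K_neg x' m).1, (K_neg x' m).2] at hN'
  have h6 : ((-1 : ℝ[X]) ^ m) * (-1) ^ m = 1 := by
    rw [← pow_add, ← two_mul, pow_mul]; simp
  have h7 : (-1 : ℝ[X]) ^ (m+1) = - (-1) ^ m := by rw [pow_succ]; ring
  rw [h7] at hN'
  have hd : K x (m+1) - C b * K x m = K x' (m+1) - C b' * K x' m := by
    linear_combination (- (-1) ^ m) * hN' -
      (K x (m+1) - C b * K x m - (K x' (m+1) - C b' * K x' m)) * h6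
  have hK : K x (m+1) = K x' (m+1) := by
    have h1 : (2 : ℝ[X]) * K x (m+1) = 2 * K x' (m+1) := by linear_combination hN + hd
    exact mul_left_cancel₀ two_ne_zero h1
  have hL : C b * K x m = C b' * K x' m := by linear_combination hN - hK
  have hbb : b = b' := by
    have := congrArg (fun P => coeff P m) hL
    simp only [coeff_C_mul] at this
    have e1 : (K x m).coeff m = 1 := by
      have := (K_monic x m).coeff_natDegree; rwa [K_deg] at this
    have e2 : (K x' m).coeff m = 1 := by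
      have := (K_monic x' m).coeff_natDegree; rwa [K_deg] at this
    rw [e1, e2] at this; simpa using this
  have hL' : K x m = K x' m := by
    rw [← hbb] at hL
    exact mul_left_cancel₀ (C_ne_zero.2 hb.ne') hL
  have hxx := K_inj hx m hK hL'
  refine ⟨?_, hbb, hxx⟩
  have hP : PX x m = PX x' m := Finset.prod_congr rfl (fun i hi => hxx i (Finset.mem_range.1 hi))
  rw [← hbb, ← hP] at hc
  have h1 : 0 < b * PX x m := mul_pos hb (PX_pos hx m)
  have h2 : a * (b * PX x m) = a' * (b * PX x m) := by linear_combination hc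
  exact mul_right_cancel₀ h1.ne' h2

end

end Pool.Agent.TnP
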