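import Pool.Agent.TnP.Main

/-!
Tridiagonal matrices (helper57, MP_e00e09_al).
-/

namespace Pool.Agent.TnP

open Polynomial Matrix

noncomputable section

/-- tridiagonal matrix with diagonal `d`, superdiagonal `u`, subdiagonal `l` -/
def TD {R : Type} [CommRing R] (d u l : ℕ → R) (n : ℕ) : Matrix (Fin n) (Fin n) R :=
  fun i j => if (j : ℕ) = i then d i else if (j : ℕ) = i + 1 then u i
    else if (i : ℕ) = j + 1 then l j else 0

theorem det_TD {R : Type} [CommRing R] (d u l : ℕ → R) (n : ℕ) :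
    (TD d u l (n+2)).det = d (n+1) * (TD d u l (n+1)).det - u n * l n * (TD d u l n).det := by
  rw [det_succ_row _ (Fin.last (n+1)), Fin.sum_univ_castSucc, Fin.sum_univ_castSucc]
  have h0 : ∑ i : Fin n, (-1) ^ (((Fin.last (n+1) : Fin (n+2)) : ℕ) +
      ((i.castSucc.castSucc : Fin (n+2)) : ℕ)) *
      TD d u l (n+2) (Fin.last (n+1)) i.castSucc.castSucc *
      ((TD d u l (n+2)).submatrix (Fin.last (n+1)).succAbove
        (i.castSucc.castSucc).succAbove).det = 0 := by
    apply Finset.sum_eq_zero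
    intro i _
    have hi := i.2
    have : TD d u l (n+2) (Fin.last (n+1)) i.castSucc.castSucc = 0 := by
      simp only [TD, Fin.val_last, Fin.val_castSucc]
      rw [if_neg (by omega), if_neg (by omega), if_neg (by omega)]
    rw [this]; ring
  rw [h0, zero_add]
  have h1 : TD d u l (n+2) (Fin.last (n+1)) (Fin.last (n+1)) = d (n+1) := by
    simp [TD]
  have h2 : TD d u l (n+2) (Fin.last (n+1)) (Fin.last n).castSucc = l n := by
    simp only [TD, Fin.val_last, Fin.val_castSucc]
    rw [if_neg (by omega), if_neg (by omega), if_pos trivial]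
  have h3 : (TD d u l (n+2)).submatrix (Fin.last (n+1)).succAbove (Fin.last (n+1)).succAbove
      = TD d u l (n+1) := by
    ext i j
    simp [TD, Matrix.submatrix_apply, Fin.succAbove_last]
  rw [h1, h2, h3]
  have h4 : ((TD d u l (n+2)).submatrix (Fin.last (n+1)).succAbove
      ((Fin.last n).castSucc).succAbove).det = u n * (TD d u l n).det := by
    rw [det_succ_column _ (Fin.last n), Fin.sum_univ_castSucc]
    have h5 : ∀ i : Fin n, ((TD d u l (n+2)).submatrix (Fin.last (n+1)).succAbove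
        ((Fin.last n).castSucc).succAbove) i.castSucc (Fin.last n) = 0 := by
      intro i
      have hi := i.2
      have e : ((Fin.last n).castSucc : Fin (n+2)).succAbove (Fin.last n) = Fin.last (n+1) := by
        rw [Fin.succAbove_castSucc_self]; rfl
      simp only [Matrix.submatrix_apply, e, Fin.succAbove_last, TD, Fin.val_last, Fin.val_castSucc]
      rw [if_neg (by omega), if_neg (by omega), if_neg (by omega)]
    have h6 : ((TD d u l (n+2)).submatrix (Fin.last (n+1)).succAbove
        ((Fin.last n).castSucc).succAbove) (Fin.last n) (Fin.last n) = u n := by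
      have e : ((Fin.last n).castSucc : Fin (n+2)).succAbove (Fin.last n) = Fin.last (n+1) := by
        rw [Fin.succAbove_castSucc_self]; rfl
      simp only [Matrix.submatrix_apply, e, Fin.succAbove_last, TD, Fin.val_last, Fin.val_castSucc]
      rw [if_neg (by omega), if_pos trivial]
    have h7 : (((TD d u l (n+2)).submatrix (Fin.last (n+1)).succAbove
        ((Fin.last n).castSucc).succAbove).submatrix (Fin.last n).succAbove
        (Fin.last n).succAbove) = TD d u l n := by
      ext i j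
      have e : ((Fin.last n).castSucc : Fin (n+2)).succAbove j.castSucc = j.castSucc.castSucc := by
        rw [Fin.succAbove_of_castSucc_lt]
        rw [Fin.lt_def]
        simp
      simp [Matrix.submatrix_apply, Fin.succAbove_last, e, TD]
    rw [h6, h7]
    rw [Finset.sum_eq_zero (fun i _ => by rw [h5 i]; ring)]
    simp only [Fin.val_last]
    rw [← two_mul, pow_mul]
    simp
  rw [h4]
  simp only [Fin.val_last, Fin.val_castSucc]
  have e1 : (-1 : R) ^ (n + 1 + n) = -1 := by
    rw [show n + 1 + n = 2 * n + 1 by ring, pow_succ, pow_mul]; simp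
  have e2 : (-1 : R) ^ (n + 1 + (n + 1)) = 1 := by
    rw [← two_mul, pow_mul]; simp
  rw [e1, e2]
  ring

theorem charpoly_TD (d u l : ℕ → ℝ) (n : ℕ) :
    (TD d u l n).charpoly =
      (TD (fun i => X - C (d i)) (fun i => - C (u i)) (fun i => - C (l i)) n).det := by
  rw [Matrix.charpoly]
  congr 1
  ext1 i j
  rw [charmatrix_apply]
  simp only [TD]
  by_cases h : (j : ℕ) = i
  · have : i = j := Fin.ext h.symm
    subst this
    simp
  · have : i ≠ j := fun e => h (by rw [e])
    rw [diagonal_apply_ne _ this, if_neg h, if_neg h]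
    split_ifs <;> simp

theorem charpoly_TD_succ (d u l : ℕ → ℝ) (n : ℕ) :
    (TD d u l (n+2)).charpoly = (X - C (d (n+1))) * (TD d u l (n+1)).charpoly -
      C (u n * l n) * (TD d u l n).charpoly := by
  rw [charpoly_TD, charpoly_TD, charpoly_TD, det_TD, C_mul]
  ring

theorem TD_low {a : ℝ} {d u l x : ℕ → ℝ} {m : ℕ} (h0 : d 0 = a)
    (hd : ∀ i, 0 < i → i < m → d i = 0) (hx : ∀ i, i < m → u i * l i = - x i) (k : ℕ) :
    (k ≤ m → (TD d u l k).charpoly = K x k - C a * M x k) ∧
    (k + 1 ≤ m → (TD d u l (k+1)).charpoly = K x (k+1) - C a * M x (k+1)) := by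
  induction k with
  | zero =>
    refine ⟨fun _ => ?_, fun _ => ?_⟩
    · simp [K, M]
    · rw [charpoly_TD]
      simp [K, M, TD, h0]
  | succ k ih =>
    refine ⟨ih.2, fun hk => ?_⟩
    rw [show k + 1 + 1 = k + 2 from rfl, charpoly_TD_succ, ih.1 (by omega), ih.2 (by omega),
      hd (k+1) (by omega) (by omega), hx k (by omega), K_succ, M_succ]
    simp only [C_0, C_neg]
    ring

theorem TD_full {a b : ℝ} {d u l x : ℕ → ℝ} {m : ℕ} (h0 : d 0 = a) (hl : d (m+1) = -b)
    (hd : ∀ i, 0 < i → i < m + 1 → d i = 0) (hx : ∀ i, i < m + 1 → u i * l i = - x i) :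
    (TD d u l (m+2)).charpoly = PP a b x (m+1) := by
  have h1 := (TD_low h0 hd hx m).1 (by omega)
  have h2 := (TD_low h0 hd hx m).2 (by omega)
  rw [charpoly_TD_succ, h1, h2, hl, hx m (by omega), PP, N0, N1, show m + 1 + 1 = m + 2 from rfl,
    K_succ, M_succ]
  simp only [C_neg]
  ring

/-- the sign pattern -/
structure IsT (m : ℕ) (A : Matrix (Fin (m+2)) (Fin (m+2)) ℝ) : Prop where
  zero : ∀ i j : Fin (m+2), ((i : ℕ) + 1 < j ∨ (j : ℕ) + 1 < i) → A i j = 0
  super : ∀ i : Fin (m+1), 0 < A i.castSucc i.succ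
  sub : ∀ i : Fin (m+1), A i.succ i.castSucc < 0
  first : 0 < A 0 0
  last : A (Fin.last (m+1)) (Fin.last (m+1)) < 0
  mid : ∀ i : Fin (m+2), i ≠ 0 → i ≠ Fin.last (m+1) → A i i = 0

/-- the parameter of a realisation -/
def weight (m : ℕ) (A : Matrix (Fin (m+2)) (Fin (m+2)) ℝ) : ℝ :=
  |A 0 0| * |A (Fin.last (m+1)) (Fin.last (m+1))| *
    ∏ i : Fin (m+1), |A i.castSucc i.succ * A i.succ i.castSucc|

/-- diagonal entries as a function on the natural numbers -/
def dF {m : ℕ} (A : Matrix (Fin (m+2)) (Fin (m+2)) ℝ) (i : ℕ) : ℝ :=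
  if h : i < m + 2 then A ⟨i, h⟩ ⟨i, h⟩ else 0

/-- superdiagonal -/
def uF {m : ℕ} (A : Matrix (Fin (m+2)) (Fin (m+2)) ℝ) (i : ℕ) : ℝ :=
  if h : i < m + 1 then A (⟨i, h⟩ : Fin (m+1)).castSucc (⟨i, h⟩ : Fin (m+1)).succ else 1

/-- subdiagonal -/
def lF {m : ℕ} (A : Matrix (Fin (m+2)) (Fin (m+2)) ℝ) (i : ℕ) : ℝ :=
  if h : i < m + 1 then A (⟨i, h⟩ : Fin (m+1)).succ (⟨i, h⟩ : Fin (m+1)).castSucc else -1

theorem eq_TD {m : ℕ} {A : Matrix (Fin (m+2)) (Fin (m+2)) ℝ} (h : IsT m A) :
    A = TD (dF A) (uF A) (lF A) (m+2) := by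
  ext i j
  have hi := i.2
  have hj := j.2
  simp only [TD]
  by_cases h1 : (j : ℕ) = i
  · have : j = i := Fin.ext h1
    subst this
    rw [if_pos rfl, dF, dif_pos hi]
  · rw [if_neg h1]
    by_cases h2 : (j : ℕ) = i + 1
    · rw [if_pos h2, uF, dif_pos (by omega : (i : ℕ) < m + 1)]
      congr 1
      exact Fin.ext (by simp [h2])
    · rw [if_neg h2]
      by_cases h3 : (i : ℕ) = j + 1
      · rw [if_pos h3, lF, dif_pos (by omega : (j : ℕ) < m + 1)]
        congr 1
        exact Fin.ext (by simp [h3])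
      · rw [if_neg h3]
        exact h.zero i j (by omega)

theorem uF_pos {m : ℕ} {A : Matrix (Fin (m+2)) (Fin (m+2)) ℝ} (h : IsT m A) (i : ℕ) :
    0 < uF A i := by
  rw [uF]
  split_ifs with hi
  · exact h.super ⟨i, hi⟩
  · exact one_pos

theorem lF_neg {m : ℕ} {A : Matrix (Fin (m+2)) (Fin (m+2)) ℝ} (h : IsT m A) (i : ℕ) :
    lF A i < 0 := by
  rw [lF]
  split_ifs with hi
  · exact h.sub ⟨i, hi⟩
  · norm_num

/-- the products of the pairs -/
def xF {m : ℕ} (A : Matrix (Fin (m+2)) (Fin (m+2)) ℝ) (i : ℕ) : ℝ := - (uF A i * lF A i)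

theorem xF_pos {m : ℕ} {A : Matrix (Fin (m+2)) (Fin (m+2)) ℝ} (h : IsT m A) (i : ℕ) :
    0 < xF A i := by
  rw [xF]
  have := mul_neg_of_pos_of_neg (uF_pos h i) (lF_neg h i)
  linarith

theorem charpoly_IsT {m : ℕ} {A : Matrix (Fin (m+2)) (Fin (m+2)) ℝ} (h : IsT m A) :
    A.charpoly = PP (A 0 0) (- A (Fin.last (m+1)) (Fin.last (m+1))) (xF A) (m+1) := by
  conv_lhs => rw [eq_TD h]
  apply TD_full
  · rw [dF, dif_pos (by omega)]; rfl
  · rw [dF, dif_pos (by omega), neg_neg]; rfl
  · intro i hi hi2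
    rw [dF, dif_pos (by omega)]
    apply h.mid
    · intro e
      have := congrArg Fin.val e
      simp at this
      omega
    · intro e
      have := congrArg Fin.val e
      simp at this
      omega
  · intro i _
    rw [xF, neg_neg]

theorem weight_IsT {m : ℕ} {A : Matrix (Fin (m+2)) (Fin (m+2)) ℝ} (h : IsT m A) :
    weight m A = A 0 0 * (- A (Fin.last (m+1)) (Fin.last (m+1))) * PX (xF A) (m+1) := by
  rw [weight, abs_of_pos h.first, abs_of_neg h.last, PX, Finset.prod_range]
  congr 1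
  apply Finset.prod_congr rfl
  intro i _
  have h1 := mul_neg_of_pos_of_neg (h.super i) (h.sub i)
  rw [abs_of_neg h1, xF, uF, lF, dif_pos i.2, dif_pos i.2]

end

end Pool.Agent.TnP
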