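import Pool.Agent.TnP.Mat

/-!
The range of the first diagonal entry (helper57, MP_e00e09_al): for a given characteristic
polynomial `p` it is the open half line of all numbers greater than the sum of the positive
real parts of the roots of `p`.
-/

namespace Pool.Agent.TnP

open Polynomial ComplexConjugate

noncomputable section

theorem K_coeff_one (x : ℕ → ℝ) (k : ℕ) : (K x (k+1)).coeff k = 0 := by
  have h1 := congrArg (fun P => coeff P k) (K_neg x k).2
  have h2 : (-1 : ℝ[X]) ^ (k+1) = C ((-1) ^ (k+1)) := by simp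
  simp only [coeff_neg, h2, coeff_C_mul] at h1
  rw [pow_succ] at h1
  have h3 : ((-1 : ℝ)) ^ k ≠ 0 := pow_ne_zero _ (by norm_num)
  have h4 : (-1 : ℝ) ^ k * (2 * (K x (k+1)).coeff k) = 0 := by linarith
  have h5 := (mul_eq_zero.1 h4).resolve_left h3
  linarith

theorem M_coeff_one (x : ℕ → ℝ) (k : ℕ) : (M x (k+2)).coeff k = 0 := by
  have h1 := congrArg (fun P => coeff P k) (M_neg x (k+1)).2
  have h2 : (-1 : ℝ[X]) ^ (k+1) = C ((-1) ^ (k+1)) := by simp
  simp only [coeff_neg, h2, coeff_C_mul] at h1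
  rw [pow_succ] at h1
  have h3 : ((-1 : ℝ)) ^ k ≠ 0 := pow_ne_zero _ (by norm_num)
  have h4 : (-1 : ℝ) ^ k * (2 * (M x (k+2)).coeff k) = 0 := by
    have : M x (k + 1 + 1) = M x (k+2) := rfl
    rw [this] at h1
    linarith
  have h5 := (mul_eq_zero.1 h4).resolve_left h3
  linarith

theorem K_coeff_lead (x : ℕ → ℝ) (k : ℕ) : (K x k).coeff k = 1 := by
  have := (K_monic x k).coeff_natDegree; rwa [K_deg] at this

theorem M_coeff_lead (x : ℕ → ℝ) (k : ℕ) : (M x (k+1)).coeff k = 1 := by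
  have := (M_monic x k).coeff_natDegree; rwa [M_deg] at this

theorem K_coeff_two (x : ℕ → ℝ) (k : ℕ) :
    (K x (k+2)).coeff k = ∑ i ∈ Finset.range (k+1), x i := by
  induction k with
  | zero =>
    rw [K_succ]
    simp [K]
  | succ k ih =>
    rw [show k + 1 + 2 = (k + 1) + 2 from rfl, K_succ, coeff_add, coeff_X_mul, coeff_C_mul,
      K_coeff_lead, Finset.sum_range_succ, ← ih]
    ring

theorem N0_coeff_one (b : ℝ) (x : ℕ → ℝ) (m : ℕ) : (N0 b x (m+1)).coeff (m+1) = b := by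
  rw [N0, coeff_add, coeff_C_mul, K_coeff_one, K_coeff_lead]; ring

theorem N1_coeff_one (b : ℝ) (x : ℕ → ℝ) (m : ℕ) : (N1 b x (m+1)).coeff (m+1) = 1 := by
  have h : (M x (m+1)).coeff (m+1) = 0 := coeff_eq_zero_of_natDegree_lt (by rw [M_deg]; omega)
  rw [N1, coeff_add, coeff_C_mul, M_coeff_lead, h]; ring

theorem N0_coeff_two (b : ℝ) (x : ℕ → ℝ) (m : ℕ) :
    (N0 b x (m+1)).coeff m = ∑ i ∈ Finset.range (m+1), x i := by
  rw [N0, coeff_add, coeff_C_mul, show m + 1 + 1 = m + 2 from rfl, K_coeff_two, K_coeff_one]; ring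

theorem N1_coeff_two (b : ℝ) (x : ℕ → ℝ) (m : ℕ) : (N1 b x (m+1)).coeff m = b := by
  rw [N1, coeff_add, coeff_C_mul, show m + 1 + 1 = m + 2 from rfl, M_coeff_one, M_coeff_lead]; ring

theorem PP_coeff_one (a b : ℝ) (x : ℕ → ℝ) (m : ℕ) : (PP a b x (m+1)).coeff (m+1) = b - a := by
  rw [PP, coeff_sub, coeff_C_mul, N0_coeff_one, N1_coeff_one]; ring

theorem PP_coeff_two (a b : ℝ) (x : ℕ → ℝ) (m : ℕ) :
    (PP a b x (m+1)).coeff m = ∑ i ∈ Finset.range (m+1), x i - a * b := by
  rw [PP, coeff_sub, coeff_C_mul, N0_coeff_two, N1_coeff_two]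

theorem GG_coeff_one (a b : ℝ) (x : ℕ → ℝ) (m : ℕ) : (GG a b x (m+1)).coeff (m+1) = a + b := by
  rw [GG, coeff_add, coeff_C_mul, N0_coeff_one, N1_coeff_one]; ring

/-- normalised entries -/
def nx (x : ℕ → ℝ) (m : ℕ) (i : ℕ) : ℝ := if i < m then x i else 1

theorem PP_nx (a b : ℝ) (x : ℕ → ℝ) (m : ℕ) : PP a b (nx x m) m = PP a b x m := by
  have h : ∀ i, i < m → nx x m i = x i := fun i hi => by rw [nx, if_pos hi]
  rw [PP, PP, N0, N0, N1, N1, (K_congr (x := nx x m) (y := x) m).1 (fun i hi => h i (by omega)),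
    (K_congr (x := nx x m) (y := x) m).2 (fun i hi => h i (by omega)),
    (M_congr (x := nx x m) (y := x) m).1 (fun i hi => h i (by omega)),
    (M_congr (x := nx x m) (y := x) m).2 (fun i hi => h i (by omega))]

theorem PX_nx (x : ℕ → ℝ) (m : ℕ) : PX (nx x m) m = PX x m := by
  rw [PX, PX]
  refine Finset.prod_congr rfl (fun i hi => ?_)
  rw [nx, if_pos (Finset.mem_range.1 hi)]

theorem nx_pos {x : ℕ → ℝ} {m : ℕ} (h : ∀ i < m, 0 < x i) (i : ℕ) : 0 < nx x m i := by
  rw [nx]; split_ifs with hi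
  · exact h i hi
  · exact one_pos

theorem uniq' {m : ℕ} {a b a' b' : ℝ} {x x' : ℕ → ℝ} (ha : 0 < a) (hb : 0 < b) (ha' : 0 < a')
    (hb' : 0 < b') (hx : ∀ i < m, 0 < x i) (hx' : ∀ i < m, 0 < x' i)
    (h : PP a b x m = PP a' b' x' m) (hc : a * b * PX x m = a' * b' * PX x' m) : a = a' := by
  refine (uniq (m := m) (x := nx x m) (x' := nx x' m) ha hb ha' hb' (nx_pos hx) (nx_pos hx') ?_ ?_).1
  · rw [PP_nx, PP_nx, h]
  · rw [PX_nx, PX_nx, hc]

theorem mono {m : ℕ} {a b a' b' : ℝ} {x x' : ℕ → ℝ} (ha' : 0 < a')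
    (hb' : 0 < b') (hx : ∀ i < m + 1, 0 < x i) (hx' : ∀ i < m + 1, 0 < x' i)
    (h : PP a b x (m+1) = PP a' b' x' (m+1))
    (hc : a * b * PX x (m+1) < a' * b' * PX x' (m+1)) : a < a' := by
  set y := nx x (m+1) with hy
  set y' := nx x' (m+1) with hy'
  have hyp := nx_pos hx
  have hyp' := nx_pos hx'
  rw [← hy] at hyp
  rw [← hy'] at hyp'
  rw [← PP_nx a b x, ← PP_nx a' b' x', ← hy, ← hy'] at h
  rw [← PX_nx x, ← PX_nx x', ← hy, ← hy'] at hc
  have hGm := GG_monic a b y (m+1)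
  have hGd : (GG a b y (m+1)).natDegree = m + 1 + 1 := by
    obtain ⟨h1, h2⟩ := N0_monic b y (m+1)
    have hlt : (C a * N1 b y (m+1)).degree < (N0 b y (m+1)).degree := by
      rw [degree_eq_natDegree h1.ne_zero, h2]
      refine lt_of_le_of_lt degree_le_natDegree ?_
      have h5 := (natDegree_C_mul_le a (N1 b y (m+1))).trans (N1_deg_le b y (m+1))
      exact_mod_cast (by omega : (C a * N1 b y (m+1)).natDegree < m + 1 + 1)
    rw [GG, natDegree_add_eq_left_of_degree_lt hlt, h2]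
  obtain ⟨α, β, hα, hβ, z, hz, hGP, hcz⟩ := exist (m+1) hGm hGd
    (c := 4 * (a' * b' * PX y' (m+1)) - 4 * (a * b * PX y (m+1))) (by linarith)
  have hGG' : GG a' b' y' (m+1) = GG α β z (m+1) := by
    refine spec_unique (GG_hur ha' hb' hyp' _) (GG_hur hα hβ hz _) (GG_monic _ _ _ _)
      (GG_monic _ _ _ _) ?_
    rw [GG_spec α β z, ← hGP, GG_spec a b y, GG_spec a' b' y', h, add_assoc, ← C_add]
    congr 2
    linarith
  have e1 := GG_coeff_one a b y m
  have e2 := GG_coeff_one a' b' y' m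
  rw [hGP, PP_coeff_one] at e1
  rw [hGG', GG_coeff_one] at e2
  have e3 := PP_coeff_one a b y m
  have e4 := PP_coeff_one a' b' y' m
  rw [h, e4] at e3
  linarith

/-- sum of the positive real parts of the roots -/
def sigmaPlus (p : ℝ[X]) : ℝ := ((p.aroots ℂ).map (fun r => max r.re 0)).sum

/-- sum of the absolute values of the real parts of the roots -/
def absRe (p : ℝ[X]) : ℝ := ((p.aroots ℂ).map (fun r => |r.re|)).sum

theorem aroots_neg {p : ℝ[X]} (hm : p.Monic) :
    (p.comp (-X)).aroots ℂ = (p.aroots ℂ).map (fun r => -r) := by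
  have hsp : (p.map (algebraMap ℝ ℂ)).Splits := IsAlgClosed.splits _
  have hmc : (p.map (algebraMap ℝ ℂ)).Monic := hm.map _
  have h1 := hsp.eq_prod_roots_of_monic hmc
  rw [aroots, aroots, map_comp, Polynomial.map_neg, map_X]
  set s := (p.map (algebraMap ℝ ℂ)).roots with hs
  have h2 : (p.map (algebraMap ℝ ℂ)).comp (-X) =
      C ((-1) ^ Multiset.card s) * ((s.map (fun r => -r)).map (fun a => X - C a)).prod := by
    rw [h1, multiset_prod_comp, Multiset.map_map, Multiset.map_map]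
    have e3 : (C ((-1) ^ Multiset.card s) : ℂ[X]) = (s.map (fun _ => (-1 : ℂ[X]))).prod := by
      rw [Multiset.map_const', Multiset.prod_replicate]; simp
    rw [e3, ← Multiset.prod_map_mul]
    congr 1
    apply Multiset.map_congr rfl
    intro r _
    simp
    ring
  rw [h2, roots_C_mul _ (pow_ne_zero _ (by norm_num)), roots_multiset_prod_X_sub_C]

theorem absRe_neg {p : ℝ[X]} (hm : p.Monic) : absRe (p.comp (-X)) = absRe p := by
  rw [absRe, absRe, aroots_neg hm, Multiset.map_map]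
  congr 1
  apply Multiset.map_congr rfl
  intro r _
  simp

theorem absRe_mul {p q : ℝ[X]} (h : p * q ≠ 0) : absRe (p * q) = absRe p + absRe q := by
  rw [absRe, absRe, absRe, aroots_mul h, Multiset.map_add, Multiset.sum_add]

theorem neg_comp_ne {p : ℝ[X]} (h : p ≠ 0) : p.comp (-X) ≠ 0 := by
  intro h0
  apply h
  have := negneg p
  rw [h0] at this
  simpa using this.symm

theorem absRe_eq {p q : ℝ[X]} (hp : p.Monic) (hq : q.Monic)
    (h : p * p.comp (-X) = q * q.comp (-X)) : absRe p = absRe q := by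
  have h1 := absRe_mul (mul_ne_zero hp.ne_zero (neg_comp_ne hp.ne_zero))
  have h2 := absRe_mul (mul_ne_zero hq.ne_zero (neg_comp_ne hq.ne_zero))
  rw [h, h2, absRe_neg hp, absRe_neg hq] at h1
  linarith

theorem sum_re (s : Multiset ℂ) : s.sum.re = (s.map (fun r => r.re)).sum := by
  induction s using Multiset.induction_on with
  | empty => simp
  | cons a s ih => rw [Multiset.sum_cons, Multiset.map_cons, Multiset.sum_cons, ← ih]; simp

theorem next_re {p : ℝ[X]} (hm : p.Monic) :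
    p.nextCoeff = - ((p.aroots ℂ).map (fun r => r.re)).sum := by
  have hsp : (p.map (algebraMap ℝ ℂ)).Splits := IsAlgClosed.splits _
  have hmc : (p.map (algebraMap ℝ ℂ)).Monic := hm.map _
  have h1 := hsp.nextCoeff_eq_neg_sum_roots_of_monic hmc
  rw [nextCoeff_map (algebraMap ℝ ℂ).injective] at h1
  have h2 := congrArg Complex.re h1
  rw [Complex.neg_re, sum_re] at h2
  rw [aroots, ← h2]; simp

theorem YY_ratio' {a : ℝ} (ha : 0 ≤ a) {x : ℕ → ℝ} (hx : ∀ i, 0 ≤ x i) {z : ℂ} (hz : 0 < z.re)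
    (k : ℕ) : aeval z (YY a x k) ≠ 0 ∧ 0 < (aeval z (YY a x (k+1)) / aeval z (YY a x k)).re := by
  induction k with
  | zero =>
    simp [YY, K, M]
    linarith
  | succ k ih =>
    obtain ⟨h1, h2⟩ := ih
    have h3 : aeval z (YY a x (k+1)) ≠ 0 := by
      intro h; rw [h] at h2; simp at h2
    refine ⟨h3, ?_⟩
    have h4 : aeval z (YY a x (k+1+1)) = z * aeval z (YY a x (k+1)) + x k * aeval z (YY a x k) := by
      rw [YY, YY, YY, show k + 1 + 1 = k + 2 from rfl, K_succ, M_succ]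
      simp only [map_mul, map_add, aeval_C, aeval_X, Complex.coe_algebraMap]
      ring
    set w := aeval z (YY a x (k+1)) / aeval z (YY a x k) with hw
    have h5 : aeval z (YY a x (k+1+1)) / aeval z (YY a x (k+1)) = z + x k * w⁻¹ := by
      rw [h4, hw, inv_div]
      field_simp
    rw [h5, Complex.add_re, Complex.re_ofReal_mul, Complex.inv_re]
    have h6 : w ≠ 0 := by
      intro h; rw [h] at h2; simp at h2
    have h7 : 0 < Complex.normSq w := Complex.normSq_pos.2 h6
    have h8 : 0 ≤ x k * (w.re / Complex.normSq w) := mul_nonneg (hx k) (div_pos h2 h7).le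
    linarith

theorem GG_roots {a b : ℝ} (ha : 0 ≤ a) (hb : 0 ≤ b) {x : ℕ → ℝ} (hx : ∀ i, 0 ≤ x i) (m : ℕ) :
    ∀ r ∈ (GG a b x m).aroots ℂ, r.re ≤ 0 := by
  intro z hz
  by_contra hc
  rw [not_le] at hc
  have h0 : aeval z (GG a b x m) = 0 := ((mem_aroots).1 hz).2
  obtain ⟨h1, h2⟩ := YY_ratio' ha hx hc m
  have h3 : aeval z (GG a b x m) = aeval z (YY a x (m+1)) + b * aeval z (YY a x m) := by
    rw [GG, N0, N1, YY, YY]
    simp only [map_mul, map_add, aeval_C, Complex.coe_algebraMap]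
    ring
  have h4 : aeval z (YY a x (m+1)) / aeval z (YY a x m) = -b := by
    rw [div_eq_iff h1]
    linear_combination h0 - h3
  rw [h4] at h2
  simp at h2
  linarith

theorem GG_deg (a b : ℝ) (x : ℕ → ℝ) (m : ℕ) : (GG a b x m).natDegree = m + 1 := by
  obtain ⟨h1, h2⟩ := N0_monic b x m
  have hlt : (C a * N1 b x m).degree < (N0 b x m).degree := by
    rw [degree_eq_natDegree h1.ne_zero, h2]
    refine lt_of_le_of_lt degree_le_natDegree ?_
    have h5 := (natDegree_C_mul_le a (N1 b x m)).trans (N1_deg_le b x m)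
    exact_mod_cast (by omega : (C a * N1 b x m).natDegree < m + 1)
  rw [GG, natDegree_add_eq_left_of_degree_lt hlt, h2]

/-- boundary data -/
theorem boundary {m : ℕ} {a b : ℝ} {x : ℕ → ℝ} {p : ℝ[X]} (ha : 0 ≤ a) (hb : 0 ≤ b)
    (hx : ∀ i, 0 ≤ x i) (hpm : p.Monic) (hpd : p.natDegree = m + 2) (h : PP a b x (m+1) = p)
    (hc : a * b * PX x (m+1) = 0) : a = sigmaPlus p := by
  have h1 := GG_spec a b x (m+1)
  have h2 : 4 * a * b * PX x (m+1) = 0 := by linear_combination 4 * hc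
  rw [h2, C_0, add_zero, h] at h1
  have h3 := absRe_eq (GG_monic a b x (m+1)) hpm h1
  have h4 := next_re (GG_monic a b x (m+1))
  have h5 : absRe (GG a b x (m+1)) = (GG a b x (m+1)).nextCoeff := by
    rw [h4, absRe, ← Multiset.sum_map_neg', Multiset.map_map]
    congr 1
    apply Multiset.map_congr rfl
    intro r hr
    exact abs_of_nonpos (GG_roots ha hb hx (m+1) r hr)
  have h6 : (GG a b x (m+1)).nextCoeff = a + b := by
    rw [nextCoeff_of_natDegree_pos (by rw [GG_deg]; omega), GG_deg]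
    exact GG_coeff_one a b x m
  have h7 := next_re hpm
  have h8 : p.nextCoeff = b - a := by
    rw [nextCoeff_of_natDegree_pos (by rw [hpd]; omega), hpd, ← h]
    exact PP_coeff_one a b x m
  have h9 : 2 * sigmaPlus p = absRe p + ((p.aroots ℂ).map (fun r => r.re)).sum := by
    rw [sigmaPlus, absRe, ← Multiset.sum_map_add, ← Multiset.sum_map_mul_left]
    congr 1
    apply Multiset.map_congr rfl
    intro r _
    rcases le_total 0 r.re with h | h
    · rw [max_eq_left h, abs_of_nonneg h]; ring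
    · rw [max_eq_right h, abs_of_nonpos h]; ring
  linarith

end

end Pool.Agent.TnP
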