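import Pool.Agent.TnP.Hur

/-!
The theorem of Routh in Schwarz form: a monic real polynomial without zeros in the closed
right half plane is `K x (m+1) + b K x m` with positive `b` and `x` (helper57, MP_e00e09_al).
-/

namespace Pool.Agent.TnP

open Polynomial ComplexConjugate

noncomputable section

theorem coeff_neg (P : ℝ[X]) (k : ℕ) : (P.comp (-X)).coeff k = (-1) ^ k * P.coeff k := by
  have e : (-X : ℝ[X]) = C (-1) * X := by simp
  rw [e, comp_C_mul_X_coeff]
  ring

theorem negneg (P : ℝ[X]) : (P.comp (-X)).comp (-X) = P := by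
  rw [comp_assoc]; simp

theorem routh_final {b : ℝ} (hb : 0 < b) {z Kz Lz : ℂ}
    (h : z.re * ‖(Kz + b * Lz) - (Kz - b * Lz)‖ ^ 2 ≤
      b * (‖Kz + b * Lz‖ ^ 2 - ‖Kz - b * Lz‖ ^ 2)) (hT : Lz + (Kz - z * Lz) = 0) :
    Kz + b * Lz = 0 := by
  have hK : Kz = (z - 1) * Lz := by linear_combination hT
  have e1 : ‖(Kz + b * Lz) - (Kz - b * Lz)‖ ^ 2 = 4 * b ^ 2 * ‖Lz‖ ^ 2 := by
    have : (Kz + b * Lz) - (Kz - b * Lz) = ((2 * b : ℝ) : ℂ) * Lz := by push_cast; ring
    rw [this, norm_mul, Complex.norm_real, Real.norm_eq_abs, abs_of_pos (by linarith)]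
    ring
  have e2 : ‖Kz + b * Lz‖ ^ 2 - ‖Kz - b * Lz‖ ^ 2 = ‖Lz‖ ^ 2 * (4 * b * (z.re - 1)) := by
    have h1 : Kz + b * Lz = (z - 1 + b) * Lz := by rw [hK]; ring
    have h2 : Kz - b * Lz = (z - 1 - b) * Lz := by rw [hK]; ring
    have h3 : ‖z - 1 + b‖ ^ 2 - ‖z - 1 - b‖ ^ 2 = 4 * b * (z.re - 1) := by
      rw [← Complex.normSq_eq_norm_sq, ← Complex.normSq_eq_norm_sq, Complex.normSq_apply,
        Complex.normSq_apply]
      simp
      ring
    rw [h1, h2, norm_mul, norm_mul, mul_pow, mul_pow, ← h3]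
    ring
  rw [e1, e2] at h
  have h5 : ‖Lz‖ ^ 2 ≤ 0 := by
    by_contra hc
    rw [not_le] at hc
    have : 0 < 4 * b ^ 2 * ‖Lz‖ ^ 2 := by positivity
    nlinarith
  have h6 : Lz = 0 := by
    have : ‖Lz‖ ^ 2 = 0 := le_antisymm h5 (sq_nonneg _)
    simpa using this
  rw [hK, h6]; simp

theorem routh (m : ℕ) : ∀ N : ℝ[X], N.Monic → N.natDegree = m + 1 → Hur N →
    ∃ b : ℝ, 0 < b ∧ ∃ x : ℕ → ℝ, (∀ i, 0 < x i) ∧ N = K x (m+1) + C b * K x m := by
  induction m with
  | zero =>
    intro N hm hd hh
    have hp := hur_next_pos hm hh (by omega)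
    rw [nextCoeff_of_natDegree_pos (by omega), hd] at hp
    refine ⟨N.coeff 0, hp, fun _ => 1, fun _ => one_pos, ?_⟩
    have h1 := eq_X_add_C_of_natDegree_le_one (p := N) (by omega)
    have h2 : N.coeff 1 = 1 := by
      have := hm.coeff_natDegree; rwa [hd] at this
    rw [h2] at h1
    simpa [K] using h1
  | succ m ih =>
    intro N hm hd hh
    have hb := hur_next_pos hm hh (by omega)
    have hineq := hur_ineq hm hh hd
    have hbe : N.nextCoeff = N.coeff (m+1) := by
      rw [nextCoeff_of_natDegree_pos (by omega), hd]; rfl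
    set b : ℝ := N.nextCoeff with hbdef
    set ε : ℝ := (-1) ^ m with hε
    have hεε : ε * ε = 1 := by
      rw [hε, ← pow_add, ← two_mul, pow_mul]; simp
    set L : ℝ[X] := C (1 / (2 * b)) * (N - C ε * N.comp (-X)) with hL
    set Kp : ℝ[X] := C (1 / 2) * (N + C ε * N.comp (-X)) with hKp
    set T : ℝ[X] := Kp - X * L with hT
    have hNKL : N = Kp + C b * L := by
      rw [hKp, hL, ← mul_assoc, ← C_mul]
      have : b * (1 / (2 * b)) = 1 / 2 := by field_simp
      rw [this, ← mul_add]
      have e : N + C ε * N.comp (-X) + (N - C ε * N.comp (-X)) = C 2 * N := by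
        rw [show (C 2 : ℝ[X]) = 2 from rfl]; ring
      rw [e, ← mul_assoc, ← C_mul]
      norm_num
    have hLc : ∀ k, L.coeff k = 1 / (2 * b) * (1 - ε * (-1) ^ k) * N.coeff k := by
      intro k
      rw [hL, coeff_C_mul, coeff_sub, coeff_C_mul, coeff_neg]; ring
    have hKc : ∀ k, Kp.coeff k = 1 / 2 * (1 + ε * (-1) ^ k) * N.coeff k := by
      intro k
      rw [hKp, coeff_C_mul, coeff_add, coeff_C_mul, coeff_neg]; ring
    have hN2 : N.coeff (m+2) = 1 := by
      have := hm.coeff_natDegree; rwa [hd] at this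
    have hNbig : ∀ k, m + 2 < k → N.coeff k = 0 := fun k hk =>
      coeff_eq_zero_of_natDegree_lt (by omega)
    have e0 : ε * (-1) ^ m = 1 := by rw [← hε]; exact hεε
    have e1 : ε * (-1) ^ (m+1) = -1 := by rw [pow_succ]; linear_combination -e0
    have e2 : ε * (-1) ^ (m+2) = 1 := by rw [pow_add]; linear_combination e0
    have hLc1 : L.coeff (m+1) = 1 := by
      rw [hLc, e1, ← hbe]; field_simp; ring
    have hLc0 : L.coeff m = 0 := by rw [hLc, e0]; ring
    have hLc2 : L.coeff (m+2) = 0 := by rw [hLc, e2]; ring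
    have hLbig : ∀ k, m + 1 < k → L.coeff k = 0 := by
      intro k hk
      rcases Nat.lt_or_ge (m+2) k with h | h
      · rw [hLc, hNbig k h]; ring
      · have : k = m + 2 := by omega
        rw [this]; exact hLc2
    have hTbig : ∀ k, m < k → T.coeff k = 0 := by
      intro k hk
      obtain ⟨j, rfl⟩ : ∃ j, k = j + 1 := ⟨k - 1, by omega⟩
      rw [hT, coeff_sub, coeff_X_mul, hKc]
      rcases Nat.lt_trichotomy j (m+1) with h | h | h
      · have : j = m := by omega
        rw [this, hLc0, e1]; ring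
      · rw [h, hLc1, show m + 1 + 1 = m + 2 from rfl, e2, hN2]; ring
      · rw [hLbig j h, hNbig (j+1) (by omega)]; ring
    have hTd : T.natDegree ≤ m := natDegree_le_iff_coeff_eq_zero.2 hTbig
    have hLd : L.natDegree ≤ m + 1 := natDegree_le_iff_coeff_eq_zero.2 hLbig
    have hN'd : (L + T).natDegree ≤ m + 1 := by
      rw [natDegree_le_iff_coeff_eq_zero]
      intro k hk
      rw [coeff_add, hLbig k hk, hTbig k (by omega), add_zero]
    have hN'c : (L + T).coeff (m+1) = 1 := by
      rw [coeff_add, hLc1, hTbig (m+1) (by omega), add_zero]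
    have hN'm : (L + T).Monic := monic_of_natDegree_le_of_coeff_eq_one (m+1) hN'd hN'c
    have hN'D : (L + T).natDegree = m + 1 :=
      le_antisymm hN'd (le_natDegree_of_ne_zero (by rw [hN'c]; exact one_ne_zero))
    have hz1 : ∀ z : ℂ, aeval z N = aeval z Kp + b * aeval z L := by
      intro z
      conv_lhs => rw [hNKL]
      simp
    have hcompX : ∀ z : ℂ, ∀ P : ℝ[X], aeval z (P.comp (-X)) = aeval (-z) P := by
      intro z P
      rw [aeval_comp]; simp
    have hz2 : ∀ z : ℂ, (-1) ^ (m+1+1) * aeval (-z) N = aeval z Kp - b * aeval z L := by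
      intro z
      have h1 : (-1 : ℂ) ^ (m+1+1) = (ε : ℂ) := by
        rw [hε]; push_cast; rw [pow_succ, pow_succ]; ring
      have h2 : (b : ℂ) ≠ 0 := by exact_mod_cast hb.ne'
      rw [h1, hKp, hL]
      simp only [map_mul, map_add, map_sub, aeval_C, hcompX, Complex.coe_algebraMap]
      push_cast
      field_simp
      ring
    have hN'h : Hur (L + T) := by
      intro z hz h0
      have h1 := hineq z hz
      have h4 : ‖aeval (-z) N‖ = ‖(-1) ^ (m+1+1) * aeval (-z) N‖ := by simp
      rw [h4, hz2, hz1] at h1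
      apply hh z hz
      rw [hz1]
      refine routh_final hb h1 ?_
      have h5 : aeval z (L + T) = aeval z L + (aeval z Kp - z * aeval z L) := by
        rw [hT]; simp
      rw [← h5]; exact h0
    obtain ⟨b', hb', x, hx, hxe⟩ := ih (L + T) hN'm hN'D hN'h
    have hLneg : L.comp (-X) = - (C ε * L) := by
      rw [hL]
      simp only [mul_comp, sub_comp, C_comp, negneg]
      have : (C ε : ℝ[X]) * C ε = 1 := by rw [← C_mul, hεε, C_1]
      linear_combination (- (C (1 / (2 * b)) * N.comp (-X))) * this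
    have hKneg : Kp.comp (-X) = C ε * Kp := by
      rw [hKp]
      simp only [mul_comp, add_comp, C_comp, negneg]
      have : (C ε : ℝ[X]) * C ε = 1 := by rw [← C_mul, hεε, C_1]
      linear_combination (- (C (1 / 2) * N.comp (-X))) * this
    have hTneg : T.comp (-X) = C ε * T := by
      rw [hT]
      simp only [sub_comp, mul_comp, X_comp]
      rw [hKneg, hLneg]; ring
    have hε2 : (C ε : ℝ[X]) = (-1) ^ m := by rw [hε]; simp
    have hpar : L - T = K x (m+1) - C b' * K x m := by
      have h1 := congrArg (fun P => P.comp (-X)) hxe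
      simp only [add_comp, mul_comp, C_comp] at h1
      rw [hLneg, hTneg, (K_neg x m).1, (K_neg x m).2, ← hε2] at h1
      have h3 : (C ε : ℝ[X]) * C ε = 1 := by rw [← C_mul, hεε, C_1]
      have h4 : (-1 : ℝ[X]) ^ (m+1) = - C ε := by rw [pow_succ, ← hε2]; ring
      rw [h4] at h1
      linear_combination (- C ε) * h1 - (L - T - (K x (m+1) - C b' * K x m)) * h3
    have hLK : L = K x (m+1) := by
      have h2 : (C 2 : ℝ[X]) * L = C 2 * K x (m+1) := by
        rw [show (C 2 : ℝ[X]) = 2 from rfl]
        linear_combination hxe + hpar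
      exact mul_left_cancel₀ (C_ne_zero.2 two_ne_zero) h2
    have hTK : T = C b' * K x m := by
      linear_combination hxe - hLK
    refine ⟨b, hb, Function.update x m b', ?_, ?_⟩
    · intro i
      by_cases hi : i = m
      · rw [hi, Function.update_self]; exact hb'
      · rw [Function.update_of_ne hi]; exact hx i
    · have hc1 : K (Function.update x m b') (m+1) = K x (m+1) :=
        (K_congr m).2 (fun i hi => Function.update_of_ne (by omega) _ _)
      have hc0 : K (Function.update x m b') m = K x m :=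
        (K_congr m).1 (fun i hi => Function.update_of_ne (by omega) _ _)
      rw [show m + 1 + 1 = m + 2 from rfl, K_succ, hc1, hc0, Function.update_self, ← hTK, ← hLK,
        hNKL, hT]
      ring

end

end Pool.Agent.TnP
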