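import Pool.Agent.TnP.Top
import Pool.Agent.TnP.Conj

/-!
MP_e00e09_al (helper57; kept as a helper file, the stronger form is CornerEntry by helper92).  `IsT m A` says that the real `n × n` matrix `A`, `n = m + 2`, belongs
to `𝒯_n`; `sigmaPlus p` is the sum of the positive real parts of the complex roots of `p`,
counted with multiplicity.
-/

namespace Pool.Agent.TnP.SharpRange

open Polynomial Matrix Pool.Agent.TnP

noncomputable section

/-- Let `p` be a real polynomial of degree `n = m + 2`.  A real number `a` is the entry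
`a_11` of a matrix `A ∈ 𝒯_n` whose characteristic polynomial is `p` (up to the leading
coefficient) if and only if `a` is greater than the sum of the positive real parts of the roots
of `p`, and for each such `a` the matrix `A` is unique up to conjugation by diagonal matrices
with positive entries. -/
theorem sharp_range (m : ℕ) (p : ℝ[X]) (hp : p.natDegree = m + 2) :
    (∀ a : ℝ, (∃ A : Matrix (Fin (m+2)) (Fin (m+2)) ℝ,
      IsT m A ∧ p = C p.leadingCoeff * A.charpoly ∧ A 0 0 = a) ↔ sigmaPlus p < a) ∧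
    ∀ A B : Matrix (Fin (m+2)) (Fin (m+2)) ℝ, IsT m A → IsT m B →
      p = C p.leadingCoeff * A.charpoly → p = C p.leadingCoeff * B.charpoly → A 0 0 = B 0 0 →
      ∃ d : Fin (m+2) → ℝ, (∀ i, 0 < d i) ∧
        B = diagonal d * A * diagonal (fun i => (d i)⁻¹) := by
  have hp0 : p ≠ 0 := by
    intro h; rw [h] at hp; simp at hp
  have hlc : p.leadingCoeff ≠ 0 := leadingCoeff_ne_zero.2 hp0
  set q : ℝ[X] := C (p.leadingCoeff)⁻¹ * p with hq
  have hqm : q.Monic := by
    rw [hq]; exact monic_C_mul_of_mul_leadingCoeff_eq_one (inv_mul_cancel₀ hlc)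
  have hqd : q.natDegree = m + 2 := by
    rw [hq, natDegree_C_mul (inv_ne_zero hlc), hp]
  have hpq : p = C p.leadingCoeff * q := by
    rw [hq, ← mul_assoc, ← C_mul, mul_inv_cancel₀ hlc, C_1, one_mul]
  have hsig : sigmaPlus q = sigmaPlus p := by
    rw [sigmaPlus, sigmaPlus, hq, aroots_C_mul _ (inv_ne_zero hlc)]
  have hchar : ∀ A : Matrix (Fin (m+2)) (Fin (m+2)) ℝ, p = C p.leadingCoeff * A.charpoly →
      A.charpoly = q := by
    intro A hA
    have h1 : C p.leadingCoeff * A.charpoly = C p.leadingCoeff * q := by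
      rw [← hA]; exact hpq
    exact mul_left_cancel₀ (C_ne_zero.2 hlc) h1
  refine ⟨fun a => ⟨?_, ?_⟩, ?_⟩
  · rintro ⟨A, hA, hAp, rfl⟩
    rw [← hsig]
    have hal := hA.last
    refine first_gt hqm hqd hA.first (by linarith : 0 < - A (Fin.last (m+1)) (Fin.last (m+1)))
      (fun i _ => xF_pos hA i) ?_
    rw [← charpoly_IsT hA, hchar A hAp]
  · intro ha
    rw [← hsig] at ha
    obtain ⟨b, ha0, hb, x, hx, hP⟩ := first_all hqm hqd ha
    obtain ⟨A, hA, hAc, _, hA0⟩ := exists_mat m ha0 hb (nx_pos hx)
    refine ⟨A, hA, ?_, hA0⟩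
    rw [hAc, PP_nx, hP]
    exact hpq
  · intro A B hA hB hAp hBp h0
    have hAq := hchar A hAp
    have hBq := hchar B hBp
    have hal := hA.last
    have hbl := hB.last
    have hPP : PP (A 0 0) (- A (Fin.last (m+1)) (Fin.last (m+1))) (xF A) (m+1) =
        PP (B 0 0) (- B (Fin.last (m+1)) (Fin.last (m+1))) (xF B) (m+1) := by
      rw [← charpoly_IsT hA, ← charpoly_IsT hB, hAq, hBq]
    have hw : A 0 0 * (- A (Fin.last (m+1)) (Fin.last (m+1))) * PX (xF A) (m+1) =
        B 0 0 * (- B (Fin.last (m+1)) (Fin.last (m+1))) * PX (xF B) (m+1) := by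
      rcases lt_trichotomy (A 0 0 * (- A (Fin.last (m+1)) (Fin.last (m+1))) * PX (xF A) (m+1))
        (B 0 0 * (- B (Fin.last (m+1)) (Fin.last (m+1))) * PX (xF B) (m+1)) with h | h | h
      · have := mono hB.first (by linarith) (fun i _ => xF_pos hA i) (fun i _ => xF_pos hB i)
          hPP h
        linarith
      · exact h
      · have := mono hA.first (by linarith) (fun i _ => xF_pos hB i) (fun i _ => xF_pos hA i)
          hPP.symm h
        linarith
    obtain ⟨e1, e2, e3⟩ := uniq hA.first (by linarith) hB.first (by linarith) (xF_pos hA)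
      (xF_pos hB) hPP hw
    exact same_of_data hA hB e1 (by linarith) e3

end

end Pool.Agent.TnP.SharpRange
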