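import Pool.Agent.TnP.Routh

/-!
Spectral factorisation of `p(s) p(-s) + c` (helper57, MP_e00e09_al).
-/

namespace Pool.Agent.TnP

open Polynomial ComplexConjugate

noncomputable section

theorem coprime_neg {F : Type} [Field F] [Algebra F ℂ] {A B : F[X]}
    (hA : ∀ z : ℂ, 0 ≤ z.re → aeval z A ≠ 0) (hB : ∀ z : ℂ, 0 ≤ z.re → aeval z B ≠ 0) :
    IsCoprime A (B.comp (-X)) := by
  refine (isCoprime_iff_aeval_ne_zero_of_isAlgClosed F ℂ A (B.comp (-X))).2 ?_
  intro a
  rcases le_or_gt 0 a.re with h | h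
  · exact Or.inl (hA a h)
  · refine Or.inr ?_
    rw [aeval_comp]
    have : aeval a (-X : F[X]) = -a := by simp
    rw [this]
    exact hB (-a) (by simp; linarith)

theorem spec_unique {F : Type} [Field F] [Algebra F ℂ] {A B : F[X]}
    (hA : ∀ z : ℂ, 0 ≤ z.re → aeval z A ≠ 0) (hB : ∀ z : ℂ, 0 ≤ z.re → aeval z B ≠ 0)
    (hmA : A.Monic) (hmB : B.Monic) (h : A * A.comp (-X) = B * B.comp (-X)) : A = B := by
  have h1 : A ∣ B := (coprime_neg hA hB).dvd_of_dvd_mul_right (h ▸ Dvd.intro _ rfl)
  have h2 : B ∣ A := (coprime_neg hB hA).dvd_of_dvd_mul_right (h.symm ▸ Dvd.intro _ rfl)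
  exact eq_of_monic_of_associated hmA hmB (associated_of_dvd_dvd h1 h2)

/-- the even polynomial to be factored -/
def QQ (p : ℝ[X]) (c : ℝ) : ℝ[X] := p * p.comp (-X) + C c

theorem QQ_even (p : ℝ[X]) (c : ℝ) : (QQ p c).comp (-X) = QQ p c := by
  rw [QQ]
  simp only [add_comp, mul_comp, C_comp, negneg]
  ring

theorem QQ_odd (p : ℝ[X]) (c : ℝ) (k : ℕ) (hk : ¬ 2 ∣ k) : (QQ p c).coeff k = 0 := by
  have h1 := congrArg (fun P => coeff P k) (QQ_even p c)
  simp only [coeff_neg] at h1
  have h2 : Odd k := by rw [Nat.two_dvd_ne_zero] at hk; exact Nat.odd_iff.2 hk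
  rw [h2.neg_one_pow] at h1
  linarith

theorem QQ_expand (p : ℝ[X]) (c : ℝ) : expand ℝ 2 (contract 2 (QQ p c)) = QQ p c := by
  ext k
  rw [coeff_expand two_pos]
  split_ifs with h
  · rw [coeff_contract two_ne_zero, Nat.div_mul_cancel h]
  · rw [QQ_odd p c k h]

theorem QQ_aeval (p : ℝ[X]) (c : ℝ) (z : ℂ) :
    aeval z (QQ p c) = aeval z p * aeval (-z) p + c := by
  rw [QQ]
  simp [aeval_comp]

theorem QQ_imag (p : ℝ[X]) {c : ℝ} (hc : 0 < c) {z : ℂ} (hz : z.re = 0) :
    aeval z (QQ p c) ≠ 0 := by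
  rw [QQ_aeval]
  have h1 : -z = conj z := by
    apply Complex.ext <;> simp [hz]
  rw [h1, aeval_conj, Complex.mul_conj, Complex.normSq_eq_norm_sq]
  have : (0 : ℝ) < ‖aeval z p‖ ^ 2 + c := by positivity
  exact_mod_cast this.ne'

theorem QQ_deg {p : ℝ[X]} (hm : p.Monic) (c : ℝ) (hn : 0 < p.natDegree) :
    (contract 2 (QQ p c)).natDegree = p.natDegree ∧
      (contract 2 (QQ p c)).leadingCoeff = (-1) ^ p.natDegree := by
  set n := p.natDegree with hnd
  have hcn : (QQ p c).coeff (n + n) = (-1) ^ n := by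
    have h2 : (p.comp (-X)).natDegree ≤ n := by
      rw [natDegree_le_iff_coeff_eq_zero]
      intro k hk
      rw [coeff_neg, coeff_eq_zero_of_natDegree_lt (by omega), mul_zero]
    rw [QQ, coeff_add, coeff_C_of_ne_zero (by omega), add_zero,
      coeff_mul_add_eq_of_natDegree_le hnd.symm.le h2, coeff_neg]
    have := hm.coeff_natDegree
    rw [← hnd] at this
    rw [this]; ring
  have hle : (QQ p c).natDegree ≤ n + n := by
    rw [natDegree_le_iff_coeff_eq_zero]
    intro k hk
    have h2 : (p.comp (-X)).natDegree ≤ n := by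
      rw [natDegree_le_iff_coeff_eq_zero]
      intro k hk
      rw [coeff_neg, coeff_eq_zero_of_natDegree_lt (by omega), mul_zero]
    rw [QQ, coeff_add, coeff_C_of_ne_zero (by omega), add_zero]
    apply coeff_eq_zero_of_natDegree_lt
    refine lt_of_le_of_lt natDegree_mul_le ?_
    omega
  have h0 : (QQ p c).coeff (n + n) ≠ 0 := by
    rw [hcn]; exact pow_ne_zero _ (by norm_num)
  have hD : (QQ p c).natDegree = n + n := le_antisymm hle (le_natDegree_of_ne_zero h0)
  have h3 : (contract 2 (QQ p c)).natDegree = n := by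
    have := congrArg natDegree (QQ_expand p c)
    rw [natDegree_expand, hD] at this
    omega
  refine ⟨h3, ?_⟩
  rw [leadingCoeff, h3, coeff_contract two_ne_zero, mul_two, hcn]

theorem exists_sqrt (μ : ℂ) : ∃ s : ℂ, s ^ 2 = μ ∧ 0 ≤ s.re := by
  obtain ⟨s, hs⟩ := IsAlgClosed.exists_pow_nat_eq μ (n := 2) two_pos
  rcases le_or_gt 0 s.re with h | h
  · exact ⟨s, hs, h⟩
  · exact ⟨-s, by rw [neg_sq]; exact hs, by simp; linarith⟩

theorem spec_exists {p : ℝ[X]} (hm : p.Monic) (hn : 0 < p.natDegree) {c : ℝ} (hc : 0 < c) :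
    ∃ G : ℝ[X], G.Monic ∧ G.natDegree = p.natDegree ∧ Hur G ∧
      G * G.comp (-X) = p * p.comp (-X) + C c := by
  choose sq hsq hre using exists_sqrt
  set q := contract 2 (QQ p c) with hq
  obtain ⟨hqd, hql⟩ := QQ_deg hm c hn
  rw [← hq] at hqd hql
  set qc := q.map (algebraMap ℝ ℂ) with hqc
  set s := qc.roots with hs
  have hsp : qc.Splits := IsAlgClosed.splits _
  have hcard : Multiset.card s = p.natDegree := by
    rw [hs, ← hsp.natDegree_eq_card_roots, hqc, natDegree_map, hqd]
  have hprod : qc = C ((-1) ^ p.natDegree) * (s.map (fun μ => X - C μ)).prod := by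
    have h1 := hsp.eq_prod_roots
    have h2 : qc.leadingCoeff = (-1) ^ p.natDegree := by
      rw [hqc, leadingCoeff_map, hql]; simp
    rw [h2] at h1
    exact h1
  have hQc : (QQ p c).map (algebraMap ℝ ℂ) = (s.map (fun μ => C μ - X ^ 2)).prod := by
    rw [← QQ_expand p c, ← hq, map_expand, ← hqc, hprod, map_mul, expand_C, map_multiset_prod,
      Multiset.map_map]
    have e3 : (C ((-1) ^ p.natDegree) : ℂ[X]) = (s.map (fun _ => (-1 : ℂ[X]))).prod := by
      rw [Multiset.map_const', Multiset.prod_replicate, hcard]; simp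
    rw [e3, ← Multiset.prod_map_mul]
    congr 1
    apply Multiset.map_congr rfl
    intro μ _
    simp
  set Gc : ℂ[X] := (s.map (fun μ => X + C (sq μ))).prod with hGc
  have hGm : Gc.Monic := monic_multiset_prod_of_monic _ _ (fun μ _ => monic_X_add_C _)
  have hGd : Gc.natDegree = p.natDegree := by
    rw [hGc, natDegree_multiset_prod_of_monic]
    · rw [Multiset.map_map]
      have : (s.map (natDegree ∘ fun μ => X + C (sq μ))) = s.map (fun _ => 1) := by
        apply Multiset.map_congr rfl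
        intro μ _
        simp
      rw [this, Multiset.map_const', Multiset.sum_replicate, hcard]; simp
    · intro f hf
      rw [Multiset.mem_map] at hf
      obtain ⟨μ, _, rfl⟩ := hf
      exact monic_X_add_C _
  have hGQ : Gc * Gc.comp (-X) = (QQ p c).map (algebraMap ℝ ℂ) := by
    have e1 : Gc.comp (-X) = (s.map (fun μ => -X + C (sq μ))).prod := by
      rw [hGc, multiset_prod_comp, Multiset.map_map]
      congr 1
      apply Multiset.map_congr rfl
      intro μ _
      simp
    rw [hQc, e1, hGc, ← Multiset.prod_map_mul]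
    congr 1
    apply Multiset.map_congr rfl
    intro μ _
    have : (C (sq μ) : ℂ[X]) * C (sq μ) = C μ := by
      rw [← C_mul, ← pow_two, hsq]
    linear_combination this
  have hGh : ∀ z : ℂ, 0 ≤ z.re → aeval z Gc ≠ 0 := by
    intro z hz h0
    rw [coe_aeval_eq_eval, hGc, eval_multiset_prod, Multiset.map_map,
      Multiset.prod_eq_zero_iff, Multiset.mem_map] at h0
    obtain ⟨μ, hμ, h1⟩ := h0
    have h2 : z + sq μ = 0 := by simpa using h1
    have h3 : (sq μ).re = 0 := by
      have := congrArg Complex.re h2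
      rw [Complex.add_re, Complex.zero_re] at this
      have := hre μ
      linarith
    apply QQ_imag p hc h3
    have h4 : eval μ qc = 0 := isRoot_of_mem_roots hμ
    rw [← QQ_expand p c, ← hq, expand_aeval, hsq, ← eval_map_algebraMap]
    exact h4
  have hreal : Gc.map (starRingEnd ℂ) = Gc := by
    refine spec_unique (F := ℂ) ?_ hGh (hGm.map _) hGm ?_
    · intro z hz h0
      rw [coe_aeval_eq_eval] at h0
      have h1 : eval z (Gc.map (starRingEnd ℂ)) = conj (eval (conj z) Gc) := by
        have := eval_map_apply (starRingEnd ℂ) (conj z) (p := Gc)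
        simpa using this
      rw [h1] at h0
      apply hGh (conj z) (by simpa using hz)
      rw [coe_aeval_eq_eval]
      simpa using h0
    · have h1 := congrArg (fun P => P.map (starRingEnd ℂ)) hGQ
      simp only [Polynomial.map_mul, map_comp, Polynomial.map_neg, map_X, Polynomial.map_map] at h1
      have h2 : (starRingEnd ℂ).comp (algebraMap ℝ ℂ) = algebraMap ℝ ℂ := by
        ext r; simp
      rw [h2, ← hGQ] at h1
      exact h1
  have hlift : Gc ∈ lifts (algebraMap ℝ ℂ) := by
    rw [lifts_iff_coeff_lifts]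
    intro k
    have h1 := congrArg (fun P => coeff P k) hreal
    simp only [coeff_map] at h1
    exact ⟨(Gc.coeff k).re, by rw [Complex.coe_algebraMap]; exact Complex.conj_eq_iff_re.1 h1⟩
  obtain ⟨G, hG⟩ := (mem_lifts Gc).1 hlift
  have hinj : Function.Injective (algebraMap ℝ ℂ) := (algebraMap ℝ ℂ).injective
  refine ⟨G, ?_, ?_, ?_, ?_⟩
  · exact hinj.monic_map_iff.2 (by rw [hG]; exact hGm)
  · rw [← hGd, ← hG, natDegree_map]
  · intro z hz h0
    apply hGh z hz
    rw [← hG, coe_aeval_eq_eval, eval_map_algebraMap]; exact h0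
  · apply map_injective _ hinj
    rw [Polynomial.map_mul, map_comp, Polynomial.map_neg, map_X, hG, hGQ, QQ]

end

end Pool.Agent.TnP
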