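import Pool.Agent.TnP.Range

/-!
Compactness: every value above `sigmaPlus p` is attained (helper57, MP_e00e09_al).
-/

namespace Pool.Agent.TnP

open Polynomial Set Topology

noncomputable section

theorem cont_K (k : ℕ) : (∀ j, Continuous fun x : ℕ → ℝ => (K x k).coeff j) ∧
    (∀ j, Continuous fun x : ℕ → ℝ => (K x (k+1)).coeff j) := by
  induction k with
  | zero =>
    refine ⟨fun j => ?_, fun j => ?_⟩
    · simp only [K]; exact continuous_const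
    · simp only [K]; exact continuous_const
  | succ k ih =>
    refine ⟨ih.2, fun j => ?_⟩
    have e : (fun x : ℕ → ℝ => (K x (k+1+1)).coeff j) =
        fun x : ℕ → ℝ => (X * K x (k+1)).coeff j + x k * (K x k).coeff j := by
      funext x
      rw [show k + 1 + 1 = k + 2 from rfl, K_succ, coeff_add, coeff_C_mul]
    rw [e]
    refine Continuous.add ?_ ((continuous_apply k).mul (ih.1 j))
    cases j with
    | zero =>
      have : (fun x : ℕ → ℝ => (X * K x (k+1)).coeff 0) = fun _ => 0 := by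
        funext x; simp
      rw [this]; exact continuous_const
    | succ j =>
      have : (fun x : ℕ → ℝ => (X * K x (k+1)).coeff (j+1)) = fun x => (K x (k+1)).coeff j := by
        funext x; rw [coeff_X_mul]
      rw [this]; exact ih.2 j

theorem cont_M (k : ℕ) : (∀ j, Continuous fun x : ℕ → ℝ => (M x k).coeff j) ∧
    (∀ j, Continuous fun x : ℕ → ℝ => (M x (k+1)).coeff j) := by
  induction k with
  | zero =>
    refine ⟨fun j => ?_, fun j => ?_⟩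
    · simp only [M]; exact continuous_const
    · simp only [M]; exact continuous_const
  | succ k ih =>
    refine ⟨ih.2, fun j => ?_⟩
    have e : (fun x : ℕ → ℝ => (M x (k+1+1)).coeff j) =
        fun x : ℕ → ℝ => (X * M x (k+1)).coeff j + x k * (M x k).coeff j := by
      funext x
      rw [show k + 1 + 1 = k + 2 from rfl, M_succ, coeff_add, coeff_C_mul]
    rw [e]
    refine Continuous.add ?_ ((continuous_apply k).mul (ih.1 j))
    cases j with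
    | zero =>
      have : (fun x : ℕ → ℝ => (X * M x (k+1)).coeff 0) = fun _ => 0 := by
        funext x; simp
      rw [this]; exact continuous_const
    | succ j =>
      have : (fun x : ℕ → ℝ => (X * M x (k+1)).coeff (j+1)) = fun x => (M x (k+1)).coeff j := by
        funext x; rw [coeff_X_mul]
      rw [this]; exact ih.2 j

theorem cont_PP (m j : ℕ) :
    Continuous fun d : ℝ × ℝ × (ℕ → ℝ) => (PP d.1 d.2.1 d.2.2 m).coeff j := by
  have hx : Continuous fun d : ℝ × ℝ × (ℕ → ℝ) => d.2.2 := continuous_snd.comp continuous_snd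
  have ha : Continuous fun d : ℝ × ℝ × (ℕ → ℝ) => d.1 := continuous_fst
  have hb : Continuous fun d : ℝ × ℝ × (ℕ → ℝ) => d.2.1 := continuous_fst.comp continuous_snd
  have e : (fun d : ℝ × ℝ × (ℕ → ℝ) => (PP d.1 d.2.1 d.2.2 m).coeff j) =
      fun d => ((K d.2.2 (m+1)).coeff j + d.2.1 * (K d.2.2 m).coeff j) -
        d.1 * ((M d.2.2 (m+1)).coeff j + d.2.1 * (M d.2.2 m).coeff j) := by
    funext d
    rw [PP, N0, N1, coeff_sub, coeff_C_mul, coeff_add, coeff_add, coeff_C_mul, coeff_C_mul]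
  rw [e]
  have k1 := (cont_K m).1 j
  have k2 := (cont_K m).2 j
  have m1 := (cont_M m).1 j
  have m2 := (cont_M m).2 j
  exact ((k2.comp hx).add (hb.mul (k1.comp hx))).sub
    (ha.mul ((m2.comp hx).add (hb.mul (m1.comp hx))))

/-- the product function -/
def cfun (m : ℕ) (d : ℝ × ℝ × (ℕ → ℝ)) : ℝ := d.1 * d.2.1 * PX d.2.2 (m+1)

theorem cont_cfun (m : ℕ) : Continuous (cfun m) := by
  have hx : Continuous fun d : ℝ × ℝ × (ℕ → ℝ) => d.2.2 := continuous_snd.comp continuous_snd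
  have ha : Continuous fun d : ℝ × ℝ × (ℕ → ℝ) => d.1 := continuous_fst
  have hb : Continuous fun d : ℝ × ℝ × (ℕ → ℝ) => d.2.1 := continuous_fst.comp continuous_snd
  refine (ha.mul hb).mul ?_
  have : (fun d : ℝ × ℝ × (ℕ → ℝ) => PX d.2.2 (m+1)) =
      fun d => ∏ i ∈ Finset.range (m+1), d.2.2 i := rfl
  rw [this]
  exact continuous_finsetProd _ (fun i _ => (continuous_apply i).comp hx)

/-- bounded data for `p` -/
def DD (m : ℕ) (p : ℝ[X]) (R : ℝ) : Set (ℝ × ℝ × (ℕ → ℝ)) :=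
  Icc ((0, 0, fun _ => 0) : ℝ × ℝ × (ℕ → ℝ)) (R, R, fun _ => R) ∩
    ⋂ j, {d | (PP d.1 d.2.1 d.2.2 (m+1)).coeff j = p.coeff j}

theorem DD_compact (m : ℕ) (p : ℝ[X]) (R : ℝ) : IsCompact (DD m p R) := by
  refine isCompact_Icc.inter_right ?_
  exact isClosed_iInter (fun j => isClosed_eq (cont_PP (m+1) j) continuous_const)

theorem mem_DD {m : ℕ} {p : ℝ[X]} {R : ℝ} {d : ℝ × ℝ × (ℕ → ℝ)} :
    d ∈ DD m p R ↔ (0 ≤ d.1 ∧ d.1 ≤ R) ∧ (0 ≤ d.2.1 ∧ d.2.1 ≤ R) ∧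
      (∀ i, 0 ≤ d.2.2 i ∧ d.2.2 i ≤ R) ∧ PP d.1 d.2.1 d.2.2 (m+1) = p := by
  rw [DD]
  constructor
  · rintro ⟨⟨⟨h1, h2, h3⟩, h4, h5, h6⟩, h7⟩
    refine ⟨⟨h1, h4⟩, ⟨h2, h5⟩, fun i => ⟨h3 i, h6 i⟩, ?_⟩
    ext j
    exact (mem_iInter.1 h7) j
  · rintro ⟨⟨h1, h2⟩, ⟨h3, h4⟩, h5, h6⟩
    refine ⟨⟨⟨h1, h3, fun i => (h5 i).1⟩, h2, h4, fun i => (h5 i).2⟩, ?_⟩
    rw [mem_iInter]
    intro j
    change (PP d.1 d.2.1 d.2.2 (m+1)).coeff j = p.coeff j
    rw [h6]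

/-- bound for the data with first entry at most `A` -/
def RR (m : ℕ) (p : ℝ[X]) (A : ℝ) : ℝ :=
  1 + A + |p.coeff (m+1)| + A * (A + |p.coeff (m+1)|) + |p.coeff m|

theorem data_mem {m : ℕ} {p : ℝ[X]} {a b A : ℝ} {x : ℕ → ℝ} (ha : 0 < a) (hb : 0 < b)
    (hx : ∀ i < m + 1, 0 < x i) (h : PP a b x (m+1) = p) (hA : a ≤ A) :
    (a, b, nx x (m+1)) ∈ DD m p (RR m p A) := by
  have h1 := PP_coeff_one a b x m
  have h2 := PP_coeff_two a b x m
  rw [h] at h1 h2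
  have h3 := le_abs_self (p.coeff (m+1))
  have h4 := le_abs_self (p.coeff m)
  have h5 : b ≤ A + |p.coeff (m+1)| := by linarith
  have h6 : a * b ≤ A * (A + |p.coeff (m+1)|) :=
    mul_le_mul hA h5 hb.le (by linarith)
  have h7 : 0 ≤ A * (A + |p.coeff (m+1)|) := le_trans (mul_pos ha hb).le h6
  have h8 := abs_nonneg (p.coeff (m+1))
  have h9 := abs_nonneg (p.coeff m)
  rw [mem_DD]
  refine ⟨⟨ha.le, ?_⟩, ⟨hb.le, ?_⟩, fun i => ⟨(nx_pos hx i).le, ?_⟩, ?_⟩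
  · rw [RR]; change a ≤ _; linarith
  · rw [RR]; change b ≤ _; linarith
  · change nx x (m+1) i ≤ _
    rw [nx, RR]
    split_ifs with hi
    · have h10 : x i ≤ ∑ i ∈ Finset.range (m+1), x i :=
        Finset.single_le_sum (f := x) (fun j hj => (hx j (Finset.mem_range.1 hj)).le)
          (Finset.mem_range.2 hi)
      linarith
    · linarith
  · change PP a b (nx x (m+1)) (m+1) = p
    rw [PP_nx, h]

theorem cfun_data {m : ℕ} {a b : ℝ} {x : ℕ → ℝ} :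
    cfun m (a, b, nx x (m+1)) = a * b * PX x (m+1) := by
  rw [cfun]
  change a * b * PX (nx x (m+1)) (m+1) = _
  rw [PX_nx]

theorem closed_zero {m : ℕ} {p : ℝ[X]} {R c1 : ℝ} (hc1 : 0 < c1) {F : Set (ℝ × ℝ × (ℕ → ℝ))}
    (hF : IsClosed F) (h : ∀ c, 0 < c → c ≤ c1 → ∃ d ∈ DD m p R ∩ F, cfun m d = c) :
    ∃ d ∈ DD m p R ∩ F, cfun m d = 0 := by
  have hcomp : IsCompact (cfun m '' (DD m p R ∩ F)) :=
    ((DD_compact m p R).inter_right hF).image (cont_cfun m)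
  have h0 : (0 : ℝ) ∈ closure (Ioc 0 c1) := by
    rw [closure_Ioc hc1.ne]
    exact ⟨le_refl 0, hc1.le⟩
  have hsub : closure (Ioc 0 c1) ⊆ cfun m '' (DD m p R ∩ F) := by
    refine closure_minimal ?_ hcomp.isClosed
    intro c hc
    obtain ⟨d, hd, hdc⟩ := h c hc.1 hc.2
    exact ⟨d, hd, hdc⟩
  obtain ⟨d, hd, hdc⟩ := hsub h0
  exact ⟨d, hd, hdc⟩

theorem pos_of_cfun {m : ℕ} {p : ℝ[X]} {R : ℝ} {d : ℝ × ℝ × (ℕ → ℝ)} (hd : d ∈ DD m p R)
    (hc : 0 < cfun m d) : 0 < d.1 ∧ 0 < d.2.1 ∧ ∀ i < m + 1, 0 < d.2.2 i := by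
  obtain ⟨⟨h1, _⟩, ⟨h2, _⟩, h3, _⟩ := mem_DD.1 hd
  rw [cfun] at hc
  refine ⟨lt_of_le_of_ne h1 ?_, lt_of_le_of_ne h2 ?_, fun i hi => lt_of_le_of_ne (h3 i).1 ?_⟩
  · intro e; rw [← e] at hc; simp at hc
  · intro e; rw [← e] at hc; simp at hc
  · intro e
    have : PX d.2.2 (m+1) = 0 := by
      rw [PX]; exact Finset.prod_eq_zero (Finset.mem_range.2 hi) e.symm
    rw [this] at hc; simp at hc

section

variable {m : ℕ} {p : ℝ[X]} (hpm : p.Monic) (hpd : p.natDegree = m + 2)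

include hpm hpd

theorem data_exists {c : ℝ} (hc : 0 < c) : ∃ a b : ℝ, 0 < a ∧ 0 < b ∧ ∃ x : ℕ → ℝ,
    (∀ i < m + 1, 0 < x i) ∧ PP a b x (m+1) = p ∧ a * b * PX x (m+1) = c := by
  obtain ⟨a, b, ha, hb, x, hx, h1, h2⟩ := exist (m+1) hpm hpd (c := 4 * c) (by linarith)
  exact ⟨a, b, ha, hb, x, fun i _ => hx i, h1.symm, by linarith⟩

/-- the first entry is larger than `sigmaPlus p` -/
theorem first_gt {a b : ℝ} {x : ℕ → ℝ} (ha : 0 < a) (hb : 0 < b) (hx : ∀ i < m + 1, 0 < x i)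
    (h : PP a b x (m+1) = p) : sigmaPlus p < a := by
  have hP : 0 < PX x (m+1) := by
    rw [PX]; exact Finset.prod_pos (fun i hi => hx i (Finset.mem_range.1 hi))
  have hc : 0 < a * b * PX x (m+1) := by positivity
  set c := a * b * PX x (m+1) with hcdef
  obtain ⟨a1, b1, ha1, hb1, x1, hx1, h1, hc1⟩ := data_exists hpm hpd (half_pos hc)
  have hlt : a1 < a := mono ha hb hx1 hx (h1.trans h.symm) (by rw [hc1, ← hcdef]; linarith)
  have hF : IsClosed {d : ℝ × ℝ × (ℕ → ℝ) | d.1 ≤ a1} := isClosed_le continuous_fst continuous_const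
  obtain ⟨d, ⟨hd, hdF⟩, hd0⟩ := closed_zero (m := m) (p := p) (R := RR m p a1) (half_pos hc) hF (by
    intro c' hc' hle
    obtain ⟨a2, b2, ha2, hb2, x2, hx2, h2, hc2⟩ := data_exists hpm hpd hc'
    have h21 : a2 ≤ a1 := by
      rcases hle.lt_or_eq with h3 | h3
      · exact (mono ha1 hb1 hx2 hx1 (h2.trans h1.symm) (by rw [hc1, hc2]; exact h3)).le
      · exact (uniq' ha2 hb2 ha1 hb1 hx2 hx1 (h2.trans h1.symm) (by rw [hc1, hc2]; exact h3)).le
    exact ⟨(a2, b2, nx x2 (m+1)), ⟨data_mem ha2 hb2 hx2 h2 h21, h21⟩, by rw [cfun_data, hc2]⟩)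
  obtain ⟨⟨e1, _⟩, ⟨e2, _⟩, e3, e4⟩ := mem_DD.1 hd
  have h5 := boundary e1 e2 (fun i => (e3 i).1) hpm hpd e4 hd0
  rw [← h5]
  exact lt_of_le_of_lt hdF hlt

/-- every larger number is a first entry -/
theorem first_all {s : ℝ} (hs : sigmaPlus p < s) : ∃ b : ℝ, 0 < s ∧ 0 < b ∧ ∃ x : ℕ → ℝ,
    (∀ i < m + 1, 0 < x i) ∧ PP s b x (m+1) = p := by
  -- data below `s`
  have hlow : ∃ a b : ℝ, 0 < a ∧ 0 < b ∧ ∃ x : ℕ → ℝ, (∀ i < m + 1, 0 < x i) ∧
      PP a b x (m+1) = p ∧ a < s := by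
    by_contra hcon
    push Not at hcon
    obtain ⟨a1, b1, ha1, hb1, x1, hx1, h1, hc1⟩ := data_exists hpm hpd one_pos
    have hF : IsClosed {d : ℝ × ℝ × (ℕ → ℝ) | s ≤ d.1} :=
      isClosed_le continuous_const continuous_fst
    obtain ⟨d, ⟨hd, hdF⟩, hd0⟩ := closed_zero (m := m) (p := p) (R := RR m p a1) one_pos hF (by
      intro c' hc' hle
      obtain ⟨a2, b2, ha2, hb2, x2, hx2, h2, hc2⟩ := data_exists hpm hpd hc'
      have h21 : a2 ≤ a1 := by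
        rcases hle.lt_or_eq with h3 | h3
        · exact (mono ha1 hb1 hx2 hx1 (h2.trans h1.symm) (by rw [hc1, hc2]; exact h3)).le
        · exact (uniq' ha2 hb2 ha1 hb1 hx2 hx1 (h2.trans h1.symm) (by rw [hc1, hc2]; exact h3)).le
      exact ⟨(a2, b2, nx x2 (m+1)), ⟨data_mem ha2 hb2 hx2 h2 h21,
        hcon a2 b2 ha2 hb2 x2 hx2 h2⟩, by rw [cfun_data, hc2]⟩)
    obtain ⟨⟨e1, _⟩, ⟨e2, _⟩, e3, e4⟩ := mem_DD.1 hd
    have h5 := boundary e1 e2 (fun i => (e3 i).1) hpm hpd e4 hd0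
    have h6 : s ≤ d.1 := hdF
    linarith
  -- data above `s`
  have hhigh : ∃ a b : ℝ, 0 < a ∧ 0 < b ∧ ∃ x : ℕ → ℝ, (∀ i < m + 1, 0 < x i) ∧
      PP a b x (m+1) = p ∧ s ≤ a := by
    by_contra hcon
    push Not at hcon
    obtain ⟨B, hB⟩ := ((DD_compact m p (RR m p s)).image (cont_cfun m)).bddAbove
    obtain ⟨a1, b1, ha1, hb1, x1, hx1, h1, hc1⟩ := data_exists hpm hpd
      (c := max B 0 + 1) (by have := le_max_right B 0; linarith)
    have h2 := hcon a1 b1 ha1 hb1 x1 hx1 h1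
    have h3 := hB (mem_image_of_mem (cfun m) (data_mem ha1 hb1 hx1 h1 h2.le))
    rw [cfun_data, hc1] at h3
    have := le_max_left B 0
    linarith
  obtain ⟨a0, b0, ha0, hb0, x0, hx0, h0, hs0⟩ := hlow
  obtain ⟨a1, b1, ha1, hb1, x1, hx1, h1, hs1⟩ := hhigh
  set c0 := a0 * b0 * PX x0 (m+1) with hc0
  set c1 := a1 * b1 * PX x1 (m+1) with hc1
  have hP0 : 0 < PX x0 (m+1) := by
    rw [PX]; exact Finset.prod_pos (fun i hi => hx0 i (Finset.mem_range.1 hi))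
  have hc0p : 0 < c0 := by positivity
  have h01 : c0 ≤ c1 := by
    by_contra hcon
    rw [not_le] at hcon
    have := mono ha0 hb0 hx1 hx0 (h1.trans h0.symm) hcon
    linarith
  set R := RR m p a1 with hR
  have hclA : IsClosed (cfun m '' (DD m p R ∩ {d | d.1 ≤ s})) :=
    (((DD_compact m p R).inter_right (isClosed_le continuous_fst continuous_const)).image
      (cont_cfun m)).isClosed
  have hclB : IsClosed (cfun m '' (DD m p R ∩ {d | s ≤ d.1})) :=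
    (((DD_compact m p R).inter_right (isClosed_le continuous_const continuous_fst)).image
      (cont_cfun m)).isClosed
  have hcov : Icc c0 c1 ⊆ cfun m '' (DD m p R ∩ {d | d.1 ≤ s}) ∪
      cfun m '' (DD m p R ∩ {d | s ≤ d.1}) := by
    intro c hc
    obtain ⟨a2, b2, ha2, hb2, x2, hx2, h2, hc2⟩ := data_exists hpm hpd
      (lt_of_lt_of_le hc0p hc.1)
    have h21 : a2 ≤ a1 := by
      rcases hc.2.lt_or_eq with h3 | h3
      · exact (mono ha1 hb1 hx2 hx1 (h2.trans h1.symm) (by rw [← hc1, hc2]; exact h3)).le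
      · exact (uniq' ha2 hb2 ha1 hb1 hx2 hx1 (h2.trans h1.symm) (by rw [← hc1, hc2]; exact h3)).le
    have hmem := data_mem ha2 hb2 hx2 h2 h21
    rcases le_total a2 s with h3 | h3
    · exact Or.inl ⟨_, ⟨hmem, h3⟩, by rw [cfun_data, hc2]⟩
    · exact Or.inr ⟨_, ⟨hmem, h3⟩, by rw [cfun_data, hc2]⟩
  have hne0 : (Icc c0 c1 ∩ cfun m '' (DD m p R ∩ {d | d.1 ≤ s})).Nonempty := by
    refine ⟨c0, ⟨le_refl _, h01⟩, _, ⟨data_mem ha0 hb0 hx0 h0 (by linarith : a0 ≤ a1), hs0.le⟩, ?_⟩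
    rw [cfun_data]
  have hne1 : (Icc c0 c1 ∩ cfun m '' (DD m p R ∩ {d | s ≤ d.1})).Nonempty := by
    refine ⟨c1, ⟨h01, le_refl _⟩, _, ⟨data_mem ha1 hb1 hx1 h1 le_rfl, hs1⟩, ?_⟩
    rw [cfun_data]
  obtain ⟨c, hc, ⟨d, ⟨hd, hds⟩, hdc⟩, ⟨e, ⟨he, hes⟩, hec⟩⟩ :=
    (isPreconnected_closed_iff.1 isPreconnected_Icc) _ _ hclA hclB hcov hne0 hne1
  have hcp : 0 < c := lt_of_lt_of_le hc0p hc.1
  obtain ⟨p1, p2, p3⟩ := pos_of_cfun hd (by rw [hdc]; exact hcp)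
  obtain ⟨q1, q2, q3⟩ := pos_of_cfun he (by rw [hec]; exact hcp)
  have hdP := (mem_DD.1 hd).2.2.2
  have heP := (mem_DD.1 he).2.2.2
  have heq : d.1 = e.1 := by
    refine uniq' p1 p2 q1 q2 p3 q3 (hdP.trans heP.symm) ?_
    rw [cfun] at hdc hec
    rw [hdc, hec]
  have hds' : d.1 ≤ s := hds
  have hes' : s ≤ e.1 := hes
  have hfin : d.1 = s := le_antisymm hds' (by rw [heq]; exact hes')
  exact ⟨d.2.1, by rw [← hfin]; exact p1, p2, d.2.2, p3, by rw [← hfin]; exact hdP⟩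

end

end

end Pool.Agent.TnP
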